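import Mathlib

set_option autoImplicit false

namespace Pool.Agent.Q253.Beat
open Finset

/-- progressions, by first term and difference -/
def aps (k n : ℕ) : Finset (ℕ × ℕ) := (Icc 1 n ×ˢ Icc 1 n).filter (fun p => p.1 + (k - 1) * p.2 ≤ n)

lemma mem_aps {k n : ℕ} {p : ℕ × ℕ} : p ∈ aps k n ↔ (1 ≤ p.1 ∧ p.1 ≤ n) ∧ (1 ≤ p.2 ∧ p.2 ≤ n) ∧ p.1 + (k - 1) * p.2 ≤ n := by
  unfold aps
  rw [mem_filter, mem_product, mem_Icc, mem_Icc]
  tauto

/-- indicator of `[1, M]` -/
def i0 (M x : ℕ) : ℤ := if 1 ≤ x ∧ x ≤ M then 1 else 0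

/-- `+1` on `(v - L, v]` and `-1` on `(v, v + L]` -/
def s (v L x : ℕ) : ℤ := (if v - L < x ∧ x ≤ v then 1 else 0) - (if v < x ∧ x ≤ v + L then 1 else 0)

lemma s_zero_of_lt {v L x : ℕ} (h : x ≤ v - L) : s v L x = 0 := by
  unfold s
  rw [if_neg (by omega), if_neg (by omega), sub_zero]

lemma s_zero_of_gt {v L x : ℕ} (h : v + L < x) : s v L x = 0 := by
  unfold s
  rw [if_neg (by omega), if_neg (by omega), sub_zero]

/-- counting a progression in an interval -/
lemma count_prog (a j x y n : ℕ) (hj : 1 ≤ j) (hax : a ≤ x) (hyn : y ≤ a + n) :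
    ∑ d ∈ Icc 1 n, (if x < a + j * d ∧ a + j * d ≤ y then (1 : ℤ) else 0) = (((Ioc ((x - a) / j) ((y - a) / j)).card : ℕ) : ℤ) := by
  rw [← Finset.sum_filter, Finset.sum_const, nsmul_eq_mul, mul_one]
  congr 2
  ext d
  rw [mem_filter, mem_Icc, mem_Ioc, Nat.div_lt_iff_lt_mul (by omega), Nat.le_div_iff_mul_le (by omega), mul_comm d j]
  constructor
  · rintro ⟨_, h1, h2⟩
    omega
  · rintro ⟨h1, h2⟩
    have hd0 : d ≠ 0 := by
      rintro rfl
      simp at h1
    have hjd : d ≤ j * d := Nat.le_mul_of_pos_left _ (by omega)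
    refine ⟨⟨by omega, by omega⟩, by omega, by omega⟩

lemma sum_s_prog (v L a j n : ℕ) (hj : 1 ≤ j) (ha : a ≤ v - L) (hL : L ≤ v) (hn : v + L ≤ n) :
    |∑ d ∈ Icc 1 n, s v L (a + j * d)| ≤ 1 := by
  have h1 : ∑ d ∈ Icc 1 n, s v L (a + j * d) =
      (((Ioc ((v - L - a) / j) ((v - a) / j)).card : ℕ) : ℤ) - (((Ioc ((v - a) / j) ((v + L - a) / j)).card : ℕ) : ℤ) := by
    unfold s
    rw [Finset.sum_sub_distrib, count_prog a j (v - L) v n hj ha (by omega),
      count_prog a j v (v + L) n hj (by omega) (by omega)]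
  rw [h1, Nat.card_Ioc, Nat.card_Ioc]
  obtain ⟨A, hA⟩ : ∃ A, v = a + L + A := ⟨v - L - a, by omega⟩
  subst hA
  have e1 : a + L + A - L - a = A := by omega
  have e2 : a + L + A - a = L + A := by omega
  have e3 : a + L + A + L - a = 2 * L + A := by omega
  rw [e1, e2, e3]
  have hj0 : 0 < j := hj
  have hXY : A / j ≤ (L + A) / j := Nat.div_le_div_right (by omega)
  have hYZ : (L + A) / j ≤ (2 * L + A) / j := Nat.div_le_div_right (by omega)
  have m1 := Nat.div_add_mod A j
  have m2 := Nat.div_add_mod (L + A) j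
  have m3 := Nat.div_add_mod (2 * L + A) j
  have l1 := Nat.mod_lt A hj0
  have l2 := Nat.mod_lt (L + A) hj0
  have l3 := Nat.mod_lt (2 * L + A) hj0
  push_cast [Nat.cast_sub hXY, Nat.cast_sub hYZ]
  obtain ⟨X, hX⟩ : ∃ X, X = A / j := ⟨_, rfl⟩
  obtain ⟨Y, hY⟩ : ∃ Y, Y = (L + A) / j := ⟨_, rfl⟩
  obtain ⟨Z, hZ⟩ : ∃ Z, Z = (2 * L + A) / j := ⟨_, rfl⟩
  rw [← hX] at m1
  rw [← hY] at m2
  rw [← hZ] at m3
  have hcX : ((A : ℤ) / (j : ℤ)) = (X : ℤ) := by rw [hX]; push_cast; rfl
  have hcY : (((L : ℤ) + A) / (j : ℤ)) = (Y : ℤ) := by rw [hY]; push_cast; rfl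
  have hcZ : ((2 * (L : ℤ) + A) / (j : ℤ)) = (Z : ℤ) := by rw [hZ]; push_cast; rfl
  rw [hcX, hcY, hcZ]
  zify at m1 m2 m3 l1 l2 l3
  have p1 := Int.emod_nonneg (A : ℤ) (show (j : ℤ) ≠ 0 by omega)
  have p2 := Int.emod_nonneg ((L : ℤ) + A) (show (j : ℤ) ≠ 0 by omega)
  have p3 := Int.emod_nonneg (2 * (L : ℤ) + A) (show (j : ℤ) ≠ 0 by omega)
  have hjz : (0 : ℤ) < j := by exact_mod_cast hj0
  rw [abs_le]
  constructor
  · by_contra hcon
    push Not at hcon
    have : (2 * (Y : ℤ) - X - Z) ≤ -2 := by omega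
    nlinarith
  · by_contra hcon
    push Not at hcon
    have : 2 ≤ (2 * (Y : ℤ) - X - Z) := by omega
    nlinarith

variable (k n M L v : ℕ)

/-- the function `g` -/
def g (x : ℕ) : ℤ := s v L x - i0 M x

/-- first block against itself -/
lemma T00 (i j : ℕ) (hij : i < j) :
    ∑ p ∈ aps k n, i0 M (p.1 + i * p.2) * i0 M (p.1 + j * p.2) ≤ (M : ℤ) ^ 2 := by
  have h1 : ∀ p ∈ aps k n, i0 M (p.1 + i * p.2) * i0 M (p.1 + j * p.2) =
      if (1 ≤ p.1 + i * p.2 ∧ p.1 + i * p.2 ≤ M) ∧ (1 ≤ p.1 + j * p.2 ∧ p.1 + j * p.2 ≤ M) then (1 : ℤ) else 0 := by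
    intro p _
    unfold i0
    by_cases h1 : (1 ≤ p.1 + i * p.2 ∧ p.1 + i * p.2 ≤ M) <;> by_cases h2 : (1 ≤ p.1 + j * p.2 ∧ p.1 + j * p.2 ≤ M) <;> simp [h1, h2]
  rw [Finset.sum_congr rfl h1, ← Finset.sum_filter, Finset.sum_const, nsmul_eq_mul, mul_one]
  have h2 : ((aps k n).filter (fun p => (1 ≤ p.1 + i * p.2 ∧ p.1 + i * p.2 ≤ M) ∧ (1 ≤ p.1 + j * p.2 ∧ p.1 + j * p.2 ≤ M))).card ≤
      (Icc 1 M ×ˢ Icc 1 M).card := by
    apply Finset.card_le_card_of_injOn (fun p => (p.1 + i * p.2, p.1 + j * p.2))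
    · intro p hp
      have hp := Finset.mem_coe.1 hp
      rw [mem_filter] at hp
      rw [Finset.mem_coe, mem_product, mem_Icc, mem_Icc]
      exact hp.2
    · intro p _ q _ h
      simp only [Prod.mk.injEq] at h
      obtain ⟨e1, e2⟩ := h
      obtain ⟨t, rfl⟩ : ∃ t, j = i + (t + 1) := ⟨j - i - 1, by omega⟩
      have e3 : (t + 1) * p.2 = (t + 1) * q.2 := by
        have e4 : p.1 + (i + (t + 1)) * p.2 = (p.1 + i * p.2) + (t + 1) * p.2 := by ring
        have e5 : q.1 + (i + (t + 1)) * q.2 = (q.1 + i * q.2) + (t + 1) * q.2 := by ring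
        rw [e4, e5] at e2
        omega
      have e6 : p.2 = q.2 := Nat.eq_of_mul_eq_mul_left (by omega) e3
      rw [e6] at e1
      exact Prod.ext (by omega) e6
  rw [card_product, Nat.card_Icc] at h2
  have h3 : ((((aps k n).filter (fun p => (1 ≤ p.1 + i * p.2 ∧ p.1 + i * p.2 ≤ M) ∧ (1 ≤ p.1 + j * p.2 ∧ p.1 + j * p.2 ≤ M))).card : ℕ) : ℤ) ≤ ((M + 1 - 1) * (M + 1 - 1) : ℕ) := by
    exact_mod_cast h2
  refine h3.trans (le_of_eq ?_)
  rw [Nat.add_sub_cancel]
  push_cast
  ring

/-- no interaction for `i ≥ 1` -/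
lemma T01a (i j : ℕ) (hi : 1 ≤ i) (hij : i < j) (hjk : j < k) (hv : (k + 1) * M + L < v) :
    ∑ p ∈ aps k n, i0 M (p.1 + i * p.2) * s v L (p.1 + j * p.2) = 0 := by
  apply Finset.sum_eq_zero
  intro p hp
  rw [mem_aps] at hp
  by_cases h1 : (1 ≤ p.1 + i * p.2 ∧ p.1 + i * p.2 ≤ M)
  · have h2 : p.2 ≤ i * p.2 := Nat.le_mul_of_pos_left _ (by omega)
    have h3 : p.1 + j * p.2 ≤ v - L := by
      have h4 : p.2 ≤ M := by omega
      have h5 : j * p.2 ≤ k * M := Nat.mul_le_mul (by omega) h4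
      have h6 : (k + 1) * M = k * M + M := by ring
      omega
    rw [s_zero_of_lt h3, mul_zero]
  · unfold i0
    rw [if_neg h1, zero_mul]

/-- `s` never comes before `i0` -/
lemma T10 (i j : ℕ) (hij : i < j) (hv : (k + 1) * M + L < v) :
    ∑ p ∈ aps k n, s v L (p.1 + i * p.2) * i0 M (p.1 + j * p.2) = 0 := by
  apply Finset.sum_eq_zero
  intro p hp
  by_cases h1 : (1 ≤ p.1 + j * p.2 ∧ p.1 + j * p.2 ≤ M)
  · have h2 : i * p.2 ≤ j * p.2 := Nat.mul_le_mul_right _ hij.le
    have h3 : p.1 + i * p.2 ≤ v - L := by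
      have h6 : (k + 1) * M = k * M + M := by ring
      omega
    rw [s_zero_of_lt h3, zero_mul]
  · unfold i0
    rw [if_neg h1, mul_zero]

lemma sum_aps (f : ℕ → ℕ → ℤ) :
    ∑ p ∈ aps k n, f p.1 p.2 = ∑ a ∈ Icc 1 n, ∑ d ∈ Icc 1 n, if a + (k - 1) * d ≤ n then f a d else 0 := by
  unfold aps
  rw [Finset.sum_filter, Finset.sum_product]

/-- interaction for `i = 0`, `j ≥ 2` -/
lemma T01b (j : ℕ) (hj : 2 ≤ j) (hjk : j < k) (hv : (k + 1) * M + L < v) (hv1 : (k - 1) * v ≤ n)
    (hkL : k * L + 2 * M ≤ v) :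
    -(M : ℤ) ≤ ∑ p ∈ aps k n, i0 M (p.1 + 0 * p.2) * s v L (p.1 + j * p.2) := by
  have hk : 3 ≤ k := by omega
  have h2v : 2 * v ≤ n := by
    have : 2 * v ≤ (k - 1) * v := Nat.mul_le_mul_right _ (by omega)
    omega
  have hMn : M ≤ n := by nlinarith
  have hLv : L ≤ v := by nlinarith
  rw [sum_aps k n (fun a d => i0 M (a + 0 * d) * s v L (a + j * d))]
  have h1 : ∀ a ∈ Icc 1 n, (∑ d ∈ Icc 1 n, if a + (k - 1) * d ≤ n then i0 M (a + 0 * d) * s v L (a + j * d) else 0) =
      if a ≤ M then ∑ d ∈ Icc 1 n, s v L (a + j * d) else 0 := by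
    intro a ha
    rw [mem_Icc] at ha
    by_cases haM : a ≤ M
    · rw [if_pos haM]
      apply Finset.sum_congr rfl
      intro d hd
      have hi : i0 M (a + 0 * d) = 1 := by
        unfold i0
        rw [if_pos (by omega)]
      rw [hi, one_mul]
      by_cases hc : a + (k - 1) * d ≤ n
      · rw [if_pos hc]
      · rw [if_neg hc]
        symm
        apply s_zero_of_gt
        by_contra hcon
        push Not at hcon
        apply hc
        have h3 : 2 * d ≤ v + L := by
          have : 2 * d ≤ j * d := Nat.mul_le_mul_right _ hj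
          omega
        have h4 : (k - 1) * (2 * d) ≤ (k - 1) * (v + L) := Nat.mul_le_mul_left _ h3
        have h5 : (k - 1) * (v + L) = (k - 1) * v + (k - 1) * L := by ring
        have h6 : (k - 1) * L ≤ k * L := Nat.mul_le_mul_right _ (by omega)
        have h7 : (k - 1) * (2 * d) = 2 * ((k - 1) * d) := by ring
        omega
    · rw [if_neg haM]
      apply Finset.sum_eq_zero
      intro d _
      have hi : i0 M (a + 0 * d) = 0 := by
        unfold i0
        rw [if_neg (by omega)]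
      rw [hi, zero_mul, ite_self]
  rw [Finset.sum_congr rfl h1, ← Finset.sum_filter]
  have h2 : ∀ a ∈ (Icc 1 n).filter (fun a => a ≤ M), (-1 : ℤ) ≤ ∑ d ∈ Icc 1 n, s v L (a + j * d) := by
    intro a ha
    rw [mem_filter] at ha
    have h6 : (k + 1) * M = k * M + M := by ring
    have := sum_s_prog v L a j n (by omega) (by omega) hLv (by omega)
    rw [abs_le] at this
    exact this.1
  refine le_trans ?_ (Finset.sum_le_sum h2)
  rw [Finset.sum_const, nsmul_eq_mul]
  have h3 : ((Icc 1 n).filter (fun a => a ≤ M)).card ≤ M := by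
    have : (Icc 1 n).filter (fun a => a ≤ M) ⊆ Icc 1 M := by
      intro a ha
      rw [mem_filter, mem_Icc] at ha
      rw [mem_Icc]
      omega
    have := Finset.card_le_card this
    rw [Nat.card_Icc] at this
    omega
  have h4 : ((((Icc 1 n).filter (fun a => a ≤ M)).card : ℕ) : ℤ) ≤ M := by exact_mod_cast h3
  linarith

/-- the main interaction `i = 0`, `j = 1` -/
lemma T01c (hk : 3 ≤ k) (hv : (k + 1) * M + L < v) (hv1 : (k - 1) * v ≤ n) (hv2 : n < (k - 1) * (v + 1)) (hML : M ≤ L) :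
    (M : ℤ) * (L - M) ≤ ∑ p ∈ aps k n, i0 M (p.1 + 0 * p.2) * s v L (p.1 + 1 * p.2) := by
  have h2v : 2 * v ≤ n := by
    have : 2 * v ≤ (k - 1) * v := Nat.mul_le_mul_right _ (by omega)
    omega
  have h6 : (k + 1) * M = k * M + M := by ring
  rw [sum_aps k n (fun a d => i0 M (a + 0 * d) * s v L (a + 1 * d))]
  have h1 : ∀ a ∈ Icc 1 n, (if a ≤ M then ((L : ℤ) - M) else 0) ≤
      (∑ d ∈ Icc 1 n, if a + (k - 1) * d ≤ n then i0 M (a + 0 * d) * s v L (a + 1 * d) else 0) := by
    intro a ha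
    rw [mem_Icc] at ha
    by_cases haM : a ≤ M
    · rw [if_pos haM]
      have e1 : ∀ d ∈ Icc 1 n, (if a + (k - 1) * d ≤ n then i0 M (a + 0 * d) * s v L (a + 1 * d) else 0) =
          (if v - L < a + d ∧ a + d ≤ v then (1 : ℤ) else 0) - (if a + (k - 1) * d ≤ n ∧ v < a + d ∧ a + d ≤ v + L then (1 : ℤ) else 0) := by
        intro d hd
        have hi : i0 M (a + 0 * d) = 1 := by
          unfold i0
          rw [if_pos (by omega)]
        rw [hi, one_mul, one_mul]
        unfold s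
        by_cases hc : a + (k - 1) * d ≤ n
        · rw [if_pos hc]
          simp only [hc, true_and]
        · rw [if_neg hc, if_neg (show ¬ (v - L < a + d ∧ a + d ≤ v) from ?_), if_neg (fun h => hc h.1), sub_zero]
          rintro ⟨_, h4⟩
          apply hc
          have h5 : (k - 1) * (a + d) ≤ (k - 1) * v := Nat.mul_le_mul_left _ h4
          have h7 : (k - 1) * (a + d) = (k - 1) * a + (k - 1) * d := by ring
          have h8 : a ≤ (k - 1) * a := Nat.le_mul_of_pos_left _ (by omega)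
          omega
      rw [Finset.sum_congr rfl e1, Finset.sum_sub_distrib]
      have e2 : ∑ d ∈ Icc 1 n, (if v - L < a + d ∧ a + d ≤ v then (1 : ℤ) else 0) = L := by
        rw [← Finset.sum_filter, Finset.sum_const, nsmul_eq_mul, mul_one]
        have : (Icc 1 n).filter (fun d => v - L < a + d ∧ a + d ≤ v) = Ioc (v - L - a) (v - a) := by
          ext d
          rw [mem_filter, mem_Icc, mem_Ioc]
          omega
        rw [this, Nat.card_Ioc]
        congr 1
        omega
      have e3 : ∑ d ∈ Icc 1 n, (if a + (k - 1) * d ≤ n ∧ v < a + d ∧ a + d ≤ v + L then (1 : ℤ) else 0) ≤ M := by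
        rw [← Finset.sum_filter, Finset.sum_const, nsmul_eq_mul, mul_one]
        have : (Icc 1 n).filter (fun d => a + (k - 1) * d ≤ n ∧ v < a + d ∧ a + d ≤ v + L) ⊆ Ioc (v - a) (v - a + M) := by
          intro d hd
          rw [mem_filter, mem_Icc] at hd
          rw [mem_Ioc]
          refine ⟨by omega, ?_⟩
          by_contra hcon
          push Not at hcon
          have h7 : v + 1 ≤ d := by omega
          have h8 : (k - 1) * (v + 1) ≤ (k - 1) * d := Nat.mul_le_mul_left _ h7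
          omega
        have h9 := Finset.card_le_card this
        rw [Nat.card_Ioc] at h9
        have : ((Icc 1 n).filter (fun d => a + (k - 1) * d ≤ n ∧ v < a + d ∧ a + d ≤ v + L)).card ≤ M := by omega
        exact_mod_cast this
      rw [e2]
      linarith
    · rw [if_neg haM]
      apply le_of_eq
      symm
      apply Finset.sum_eq_zero
      intro d _
      have hi : i0 M (a + 0 * d) = 0 := by
        unfold i0
        rw [if_neg (by omega)]
      rw [hi, zero_mul, ite_self]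
  refine le_trans ?_ (Finset.sum_le_sum h1)
  rw [← Finset.sum_filter, Finset.sum_const, nsmul_eq_mul]
  have h3 : (Icc 1 n).filter (fun a => a ≤ M) = Icc 1 M := by
    ext a
    rw [mem_filter, mem_Icc, mem_Icc]
    constructor
    · omega
    · intro h
      have : M ≤ n := by nlinarith
      omega
  rw [h3, Nat.card_Icc, Nat.add_sub_cancel]

/-- the second pair of blocks against itself -/
lemma T11 (i j : ℕ) (hij : i < j) (hjk : j < k) (hv : (2 * k + 1) * L < v) (hvk : k < v - L) (hn : 2 * v ≤ n) :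
    ∑ p ∈ aps k n, s v L (p.1 + i * p.2) * s v L (p.1 + j * p.2) ≤ (k : ℤ) := by
  obtain ⟨h, hh, rfl⟩ : ∃ h, 1 ≤ h ∧ j = i + h := ⟨j - i, by omega, by omega⟩
  have hLv : L ≤ v := by nlinarith
  have e6 : (2 * k + 1) * L = 2 * k * L + L := by ring
  -- change of variables
  have e1 : ∑ p ∈ aps k n, s v L (p.1 + i * p.2) * s v L (p.1 + (i + h) * p.2) =
      ∑ q ∈ Icc 1 n ×ˢ Icc 1 n, s v L q.1 * s v L (q.1 + h * q.2) := by
    rw [← Finset.sum_filter_ne_zero, ← Finset.sum_filter_ne_zero (s := Icc 1 n ×ˢ Icc 1 n)]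
    apply Finset.sum_bij (fun p _ => (p.1 + i * p.2, p.2))
    · intro p hp
      rw [mem_filter, mem_aps] at hp
      rw [mem_filter, mem_product, mem_Icc, mem_Icc]
      have h1 : i * p.2 ≤ (k - 1) * p.2 := Nat.mul_le_mul_right _ (by omega)
      refine ⟨⟨⟨by simp only; omega, by simp only; omega⟩, hp.1.2.1⟩, ?_⟩
      simp only
      have : p.1 + i * p.2 + h * p.2 = p.1 + (i + h) * p.2 := by ring
      rw [this]
      exact hp.2
    · intro p _ q _ heq
      simp only [Prod.mk.injEq] at heq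
      obtain ⟨h1, h2⟩ := heq
      rw [h2] at h1
      exact Prod.ext (by omega) h2
    · intro q hq
      rw [mem_filter, mem_product, mem_Icc, mem_Icc] at hq
      obtain ⟨⟨⟨hq1, hq2⟩, hq3, hq4⟩, hq5⟩ := hq
      have hs1 : s v L q.1 ≠ 0 := fun h0 => hq5 (by rw [h0, zero_mul])
      have hs2 : s v L (q.1 + h * q.2) ≠ 0 := fun h0 => hq5 (by rw [h0, mul_zero])
      have b1 : v - L < q.1 := by
        by_contra hcon
        exact hs1 (s_zero_of_lt (by omega))
      have b2 : q.1 + h * q.2 ≤ v + L := by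
        by_contra hcon
        exact hs2 (s_zero_of_gt (by omega))
      have b3 : q.2 ≤ h * q.2 := Nat.le_mul_of_pos_left _ (by omega)
      have b4 : q.2 ≤ 2 * L := by omega
      have b5 : i * q.2 ≤ k * (2 * L) := Nat.mul_le_mul (by omega) b4
      have b6 : (k - 1) * q.2 ≤ k * (2 * L) := Nat.mul_le_mul (by omega) b4
      have b7 : k * (2 * L) = 2 * k * L := by ring
      refine ⟨(q.1 - i * q.2, q.2), ?_, ?_⟩
      · rw [mem_filter, mem_aps]
        refine ⟨⟨⟨by simp only; omega, by simp only; omega⟩, ⟨hq3, hq4⟩, by simp only; omega⟩, ?_⟩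
        simp only
        have c1 : q.1 - i * q.2 + i * q.2 = q.1 := by omega
        have c2 : q.1 - i * q.2 + (i + h) * q.2 = q.1 + h * q.2 := by
          rw [add_mul]
          omega
        rw [c1, c2]
        exact hq5
      · simp only
        exact Prod.ext (by simp only; omega) rfl
    · intro p _
      simp only
      have : p.1 + i * p.2 + h * p.2 = p.1 + (i + h) * p.2 := by ring
      rw [this]
  rw [e1, Finset.sum_product]
  -- telescoping
  set W : ℕ → ℤ := fun u => ∑ d ∈ range (n + 1), s v L (u + h * d) with hW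
  have w0 : ∀ u, s v L (u + h * (n + 1)) = 0 := by
    intro u
    apply s_zero_of_gt
    have : n + 1 ≤ h * (n + 1) := Nat.le_mul_of_pos_left _ (by omega)
    omega
  have w1 : ∀ u, W (u + h) = ∑ d ∈ Icc 1 n, s v L (u + h * d) := by
    intro u
    rw [hW]
    simp only
    rw [Finset.sum_range_succ]
    have z1 : s v L (u + h + h * n) = 0 := by
      have := w0 u
      rw [show u + h * (n + 1) = u + h + h * n by ring] at this
      exact this
    rw [z1, add_zero, Finset.sum_bij (fun (d : ℕ) _ => d + 1)]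
    · intro d hd
      rw [Finset.mem_range] at hd
      rw [mem_Icc]
      omega
    · intro a _ b _ hab
      omega
    · intro b hb
      rw [mem_Icc] at hb
      exact ⟨b - 1, by rw [Finset.mem_range]; omega, by omega⟩
    · intro d _
      rw [show u + h + h * d = u + h * (d + 1) by ring]
  have w2 : ∀ u, W u = s v L u + W (u + h) := by
    intro u
    rw [hW]
    simp only
    rw [Finset.sum_range_succ', Finset.sum_range_succ]
    have z1 : s v L (u + h + h * n) = 0 := by
      have := w0 u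
      rw [show u + h * (n + 1) = u + h + h * n by ring] at this
      exact this
    rw [z1, add_zero, mul_zero, add_zero, add_comm]
    congr 1
    apply Finset.sum_congr rfl
    intro d _
    rw [show u + h * (d + 1) = u + h + h * d by ring]
  have w3 : ∀ u ∈ Icc 1 n, 2 * ∑ d ∈ Icc 1 n, s v L u * s v L (u + h * d) ≤ W u ^ 2 - W (u + h) ^ 2 := by
    intro u _
    rw [← Finset.mul_sum, ← w1]
    have := w2 u
    have h2 : s v L u = W u - W (u + h) := by rw [this]; ring
    rw [h2]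
    nlinarith [sq_nonneg (W u - W (u + h))]
  have w4 : ∀ u, u + 1 ≤ k → |W (u + 1)| ≤ 1 := by
    intro u hu
    rw [w2, s_zero_of_lt (by omega), zero_add, w1]
    exact sum_s_prog v L (u + 1) h n hh (by omega) hLv (by omega)
  have w5 : ∑ u ∈ Icc 1 n, (W u ^ 2 - W (u + h) ^ 2) ≤ ∑ u ∈ range h, W (u + 1) ^ 2 := by
    have r1 : ∀ f : ℕ → ℤ, ∑ u ∈ Icc 1 n, f u = ∑ u ∈ range n, f (u + 1) := by
      intro f
      rw [Finset.range_eq_Ico, Finset.sum_Ico_add' f 0 n 1]
      apply Finset.sum_congr _ (fun _ _ => rfl)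
      ext x
      rw [mem_Icc, mem_Ico]
      omega
    rw [r1, Finset.sum_sub_distrib]
    have r2 : ∑ u ∈ range (h + n), W (u + 1) ^ 2 = ∑ u ∈ range h, W (u + 1) ^ 2 + ∑ u ∈ range n, W (h + u + 1) ^ 2 := by
      rw [Finset.sum_range_add]
    have r3 : ∑ u ∈ range n, W (u + 1) ^ 2 ≤ ∑ u ∈ range (h + n), W (u + 1) ^ 2 := by
      apply Finset.sum_le_sum_of_subset_of_nonneg
      · intro x hx
        rw [Finset.mem_range] at hx ⊢
        omega
      · intro _ _ _
        positivity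
    have r4 : ∑ u ∈ range n, W (h + u + 1) ^ 2 = ∑ u ∈ range n, W (u + 1 + h) ^ 2 := by
      apply Finset.sum_congr rfl
      intro u _
      rw [show h + u + 1 = u + 1 + h by ring]
    linarith
  have w6 : ∑ u ∈ range h, W (u + 1) ^ 2 ≤ h := by
    calc ∑ u ∈ range h, W (u + 1) ^ 2 ≤ ∑ u ∈ range h, 1 := by
          apply Finset.sum_le_sum
          intro u hu
          rw [Finset.mem_range] at hu
          have := w4 u (by omega)
          rw [← sq_abs]
          have h0 := abs_nonneg (W (u + 1))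
          nlinarith
      _ = h := by simp
  have w7 := Finset.sum_le_sum w3
  rw [← Finset.mul_sum] at w7
  have hhk : (h : ℤ) ≤ k := by exact_mod_cast (by omega : h ≤ k)
  have hh0 : (0 : ℤ) ≤ k := by positivity
  linarith

/-- the quadratic form -/
lemma quad (hk : 3 ≤ k) (hv : (2 * k + 1) * L + (k + 1) * M < v) (hvk : k < v - L) (hv1 : (k - 1) * v ≤ n)
    (hv2 : n < (k - 1) * (v + 1)) (hML : M ≤ L) :
    ∑ p ∈ aps k n, ∑ j ∈ range k, ∑ i ∈ range j, g M L v (p.1 + i * p.2) * g M L v (p.1 + j * p.2) ≤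
      (k : ℤ) ^ 2 * (M ^ 2 + k) + k * M - M * (L - M) := by
  have h2v : 2 * v ≤ n := by
    have : 2 * v ≤ (k - 1) * v := Nat.mul_le_mul_right _ (by omega)
    omega
  have ee1 : (2 * k + 1) * L = 2 * (k * L) + L := by ring
  have ee2 : (k + 1) * M = k * M + M := by ring
  have ee3 : 2 * M ≤ k * M := Nat.mul_le_mul_right _ (by omega)
  rw [Finset.sum_comm]
  have h1 : ∀ j ∈ range k, ∑ p ∈ aps k n, ∑ i ∈ range j, g M L v (p.1 + i * p.2) * g M L v (p.1 + j * p.2) ≤
      (if j = 0 then 0 else (j : ℤ) * (M ^ 2 + k) + (M : ℤ)) - (if j = 1 then (M : ℤ) * (L - M) + M else 0) := by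
    intro j hj
    rw [Finset.mem_range] at hj
    rw [Finset.sum_comm]
    by_cases hj0 : j = 0
    · subst hj0
      simp
    rw [if_neg hj0]
    have h2 : ∀ i ∈ range j, ∑ p ∈ aps k n, g M L v (p.1 + i * p.2) * g M L v (p.1 + j * p.2) ≤
        (M : ℤ) ^ 2 + k - ∑ p ∈ aps k n, i0 M (p.1 + i * p.2) * s v L (p.1 + j * p.2) := by
      intro i hi
      rw [Finset.mem_range] at hi
      have e1 : ∀ p ∈ aps k n, g M L v (p.1 + i * p.2) * g M L v (p.1 + j * p.2) =
          s v L (p.1 + i * p.2) * s v L (p.1 + j * p.2) - s v L (p.1 + i * p.2) * i0 M (p.1 + j * p.2)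
          - i0 M (p.1 + i * p.2) * s v L (p.1 + j * p.2) + i0 M (p.1 + i * p.2) * i0 M (p.1 + j * p.2) := by
        intro p _
        unfold g
        ring
      rw [Finset.sum_congr rfl e1, Finset.sum_add_distrib, Finset.sum_sub_distrib, Finset.sum_sub_distrib,
        T10 k n M L v i j hi (by omega), sub_zero]
      have t00 := T00 k n M i j hi
      have t11 := T11 k n L v i j hi hj (by omega) hvk h2v
      linarith
    refine (Finset.sum_le_sum h2).trans ?_
    rw [Finset.sum_sub_distrib, Finset.sum_const, Finset.card_range, nsmul_eq_mul]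
    have h3 : ∑ i ∈ range j, ∑ p ∈ aps k n, i0 M (p.1 + i * p.2) * s v L (p.1 + j * p.2) =
        ∑ p ∈ aps k n, i0 M (p.1 + 0 * p.2) * s v L (p.1 + j * p.2) := by
      rw [Finset.sum_eq_single_of_mem 0 (by rw [Finset.mem_range]; omega)]
      intro i hi hi0
      rw [Finset.mem_range] at hi
      exact T01a k n M L v i j (by omega) hi hj (by omega)
    rw [h3]
    by_cases hj1 : j = 1
    · subst hj1
      rw [if_pos rfl]
      have t := T01c k n M L v hk (by omega) hv1 hv2 hML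
      linarith
    · rw [if_neg hj1]
      have ee4 : k * L ≤ 2 * (k * L) := by omega
      have t := T01b k n M L v j (by omega) hj (by omega) hv1 (by omega)
      linarith
  refine (Finset.sum_le_sum h1).trans ?_
  rw [Finset.sum_sub_distrib]
  have h4 : ∑ j ∈ range k, (if j = 1 then (M : ℤ) * (L - M) + M else 0) = (M : ℤ) * (L - M) + M := by
    rw [Finset.sum_ite_eq' (range k) 1, if_pos (by rw [Finset.mem_range]; omega)]
  have h5 : ∑ j ∈ range k, (if j = 0 then 0 else (j : ℤ) * (M ^ 2 + k) + (M : ℤ)) ≤ k * ((k : ℤ) * (M ^ 2 + k)) + k * (M : ℤ) := by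
    calc ∑ j ∈ range k, (if j = 0 then 0 else (j : ℤ) * (M ^ 2 + k) + (M : ℤ)) ≤ ∑ j ∈ range k, ((k : ℤ) * (M ^ 2 + k) + (M : ℤ)) := by
          apply Finset.sum_le_sum
          intro j hj
          rw [Finset.mem_range] at hj
          have : (j : ℤ) ≤ k := by exact_mod_cast hj.le
          split_ifs
          · positivity
          · have h0 : (0 : ℤ) ≤ (M : ℤ) ^ 2 + k := by positivity
            nlinarith
      _ = _ := by
          rw [Finset.sum_const, Finset.card_range, nsmul_eq_mul]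
          ring
  rw [h4]
  have hM0 : (0 : ℤ) ≤ M := by positivity
  nlinarith

end Pool.Agent.Q253.Beat
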