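import Pool.Agent.Q253.BeatA

set_option autoImplicit false

namespace Pool.Agent.Q253.Beat
open Finset

/-! ### expansion of the products -/

lemma expand (m : ℕ) : ∃ C : ℝ, 0 ≤ C ∧ ∀ (ρ ε : ℝ) (x : ℕ → ℝ), 0 ≤ ρ → ρ ≤ 1 → 0 ≤ ε → ε ≤ 1 → (∀ j, |x j| ≤ 1) →
    |(∏ j ∈ range (m + 2), (ρ + ε * x j)) + (∏ j ∈ range (m + 2), (ρ - ε * x j)) - 2 * ρ ^ (m + 2)
      - 2 * ρ ^ m * ε ^ 2 * ∑ j ∈ range (m + 2), ∑ i ∈ range j, x i * x j| ≤ C * ε ^ 3 ∧
    |(∏ j ∈ range (m + 2), (ρ + ε * x j)) - (∏ j ∈ range (m + 2), (ρ - ε * x j))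
      - 2 * ρ ^ (m + 1) * ε * ∑ j ∈ range (m + 2), x j| ≤ C * ε ^ 3 := by
  induction m with
  | zero =>
    refine ⟨0, le_refl _, ?_⟩
    intro ρ ε x _ _ _ _ _
    constructor
    · apply le_of_eq
      rw [zero_mul, abs_eq_zero]
      simp only [zero_add, Finset.prod_range_succ, Finset.sum_range_succ, Finset.prod_range_zero, Finset.sum_range_zero]
      ring
    · apply le_of_eq
      rw [zero_mul, abs_eq_zero]
      simp only [zero_add, Finset.prod_range_succ, Finset.sum_range_succ, Finset.prod_range_zero, Finset.sum_range_zero]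
      ring
  | succ m ih =>
    obtain ⟨C, hC, h⟩ := ih
    refine ⟨2 * C + 2 * ((m : ℝ) + 2) ^ 2, by positivity, ?_⟩
    intro ρ ε x hρ0 hρ1 hε0 hε1 hx
    obtain ⟨h1, h2⟩ := h ρ ε x hρ0 hρ1 hε0 hε1 hx
    set S := (∏ j ∈ range (m + 2), (ρ + ε * x j)) with hS
    set T := (∏ j ∈ range (m + 2), (ρ - ε * x j)) with hT
    set e1 := ∑ j ∈ range (m + 2), x j with he1
    set e2 := ∑ j ∈ range (m + 2), ∑ i ∈ range j, x i * x j with he2
    have r1 : (∏ j ∈ range (m + 1 + 2), (ρ + ε * x j)) = S * (ρ + ε * x (m + 2)) := Finset.prod_range_succ _ _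
    have r2 : (∏ j ∈ range (m + 1 + 2), (ρ - ε * x j)) = T * (ρ - ε * x (m + 2)) := Finset.prod_range_succ _ _
    have r3 : ∑ j ∈ range (m + 1 + 2), x j = e1 + x (m + 2) := Finset.sum_range_succ _ _
    have r4 : ∑ j ∈ range (m + 1 + 2), ∑ i ∈ range j, x i * x j = e2 + e1 * x (m + 2) := by
      rw [show m + 1 + 2 = (m + 2) + 1 by ring, Finset.sum_range_succ, ← Finset.sum_mul]
    rw [r1, r2, r3, r4]
    set y := x (m + 2) with hy
    have hy1 : |y| ≤ 1 := hx _
    have hε3 : 0 ≤ ε ^ 3 := by positivity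
    have hbound2 : |e2| ≤ ((m : ℝ) + 2) ^ 2 := by
      calc |e2| ≤ ∑ j ∈ range (m + 2), |∑ i ∈ range j, x i * x j| := Finset.abs_sum_le_sum_abs _ _
        _ ≤ ∑ j ∈ range (m + 2), ((m : ℝ) + 2) := by
            apply Finset.sum_le_sum
            intro j hj
            rw [Finset.mem_range] at hj
            calc |∑ i ∈ range j, x i * x j| ≤ ∑ i ∈ range j, |x i * x j| := Finset.abs_sum_le_sum_abs _ _
              _ ≤ ∑ i ∈ range j, (1 : ℝ) := by
                  apply Finset.sum_le_sum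
                  intro i _
                  rw [abs_mul]
                  exact mul_le_one₀ (hx i) (abs_nonneg _) (hx j)
              _ = j := by simp
              _ ≤ (m : ℝ) + 2 := by exact_mod_cast hj.le
        _ = ((m : ℝ) + 2) ^ 2 := by
            rw [Finset.sum_const, Finset.card_range, nsmul_eq_mul]
            push_cast
            ring
    set A := S + T - 2 * ρ ^ (m + 2) - 2 * ρ ^ m * ε ^ 2 * e2 with hA
    set B := S - T - 2 * ρ ^ (m + 1) * ε * e1 with hB
    have hεy : |ε * y| ≤ 1 := by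
      rw [abs_mul, abs_of_nonneg hε0]
      exact mul_le_one₀ hε1 (abs_nonneg _) hy1
    constructor
    · have : S * (ρ + ε * y) + T * (ρ - ε * y) - 2 * ρ ^ (m + 1 + 2) - 2 * ρ ^ (m + 1) * ε ^ 2 * (e2 + e1 * y) =
          ρ * A + (ε * y) * B := by
        rw [hA, hB]
        ring
      rw [this]
      calc |ρ * A + ε * y * B| ≤ |ρ * A| + |ε * y * B| := abs_add_le _ _
        _ ≤ |A| + |B| := by
            rw [abs_mul, abs_mul, abs_of_nonneg hρ0]
            have h3 : ρ * |A| ≤ 1 * |A| := mul_le_mul_of_nonneg_right hρ1 (abs_nonneg _)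
            have h4 : |ε * y| * |B| ≤ 1 * |B| := mul_le_mul_of_nonneg_right hεy (abs_nonneg _)
            linarith
        _ ≤ (2 * C + 2 * ((m : ℝ) + 2) ^ 2) * ε ^ 3 := by
            have : 0 ≤ 2 * ((m : ℝ) + 2) ^ 2 * ε ^ 3 := by positivity
            nlinarith
    · have : S * (ρ + ε * y) - T * (ρ - ε * y) - 2 * ρ ^ (m + 1 + 1) * ε * (e1 + y) =
          ρ * B + (ε * y) * A + 2 * ρ ^ m * ε ^ 3 * (y * e2) := by
        rw [hA, hB]
        ring
      rw [this]
      have h5 : |2 * ρ ^ m * ε ^ 3 * (y * e2)| ≤ 2 * ((m : ℝ) + 2) ^ 2 * ε ^ 3 := by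
        rw [abs_mul, abs_mul y, abs_of_nonneg (by positivity : 0 ≤ 2 * ρ ^ m * ε ^ 3)]
        have h6 : ρ ^ m ≤ 1 := pow_le_one₀ hρ0 hρ1
        have h7 : |y| * |e2| ≤ 1 * ((m : ℝ) + 2) ^ 2 := mul_le_mul hy1 hbound2 (abs_nonneg _) zero_le_one
        calc 2 * ρ ^ m * ε ^ 3 * (|y| * |e2|) ≤ 2 * 1 * ε ^ 3 * (1 * ((m : ℝ) + 2) ^ 2) := by
              gcongr
          _ = _ := by ring
      calc |ρ * B + ε * y * A + 2 * ρ ^ m * ε ^ 3 * (y * e2)| ≤ |ρ * B| + |ε * y * A| + |2 * ρ ^ m * ε ^ 3 * (y * e2)| :=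
            (abs_add_le _ _).trans (add_le_add (abs_add_le _ _) le_rfl)
        _ ≤ |B| + |A| + 2 * ((m : ℝ) + 2) ^ 2 * ε ^ 3 := by
            rw [abs_mul ρ, abs_mul (ε * y), abs_of_nonneg hρ0]
            have h3 : ρ * |B| ≤ 1 * |B| := mul_le_mul_of_nonneg_right hρ1 (abs_nonneg _)
            have h4 : |ε * y| * |A| ≤ 1 * |A| := mul_le_mul_of_nonneg_right hεy (abs_nonneg _)
            linarith
        _ ≤ (2 * C + 2 * ((m : ℝ) + 2) ^ 2) * ε ^ 3 := by
            nlinarith

/-! ### the number of progressions -/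

lemma tele (K n D : ℕ) : 2 * K * ∑ d ∈ Icc 1 D, (n - K * d) + (n - K * D) ^ 2 ≤ n ^ 2 := by
  induction D with
  | zero => simp
  | succ D ih =>
    rw [Finset.sum_Icc_succ_top (by omega), mul_add]
    have h1 : 2 * K * (n - K * (D + 1)) + (n - K * (D + 1)) ^ 2 ≤ (n - K * D) ^ 2 := by
      by_cases h : K * (D + 1) ≤ n
      · obtain ⟨y, hy⟩ : ∃ y, n = K * (D + 1) + y := ⟨n - K * (D + 1), by omega⟩
        have e1 : n - K * (D + 1) = y := by omega
        have e2 : n - K * D = y + K := by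
          have : K * (D + 1) = K * D + K := by ring
          omega
        rw [e1, e2]
        nlinarith
      · have e1 : n - K * (D + 1) = 0 := by omega
        rw [e1]
        simp
    omega

lemma card_aps_le (k n : ℕ) : 2 * (k - 1) * (aps k n).card ≤ n ^ 2 := by
  have h1 : (aps k n).card ≤ ∑ d ∈ Icc 1 n, (n - (k - 1) * d) := by
    have h2 : (aps k n).card = ∑ d ∈ Icc 1 n, ((aps k n).filter (fun p => p.2 = d)).card := by
      apply Finset.card_eq_sum_card_fiberwise
      intro p hp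
      have hp := Finset.mem_coe.1 hp
      rw [mem_aps] at hp
      rw [Finset.mem_coe, mem_Icc]
      exact hp.2.1
    rw [h2]
    apply Finset.sum_le_sum
    intro d _
    have h3 : ((aps k n).filter (fun p => p.2 = d)).card ≤ (Icc 1 (n - (k - 1) * d)).card := by
      apply Finset.card_le_card_of_injOn (fun p => p.1)
      · intro p hp
        have hp := Finset.mem_coe.1 hp
        rw [mem_filter, mem_aps] at hp
        obtain ⟨⟨h4, h5, h6⟩, h7⟩ := hp
        rw [Finset.mem_coe, mem_Icc]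
        rw [h7] at h6
        change 1 ≤ p.1 ∧ p.1 ≤ n - (k - 1) * d
        omega
      · intro p hp q hq h
        have hp := (mem_filter.1 (Finset.mem_coe.1 hp)).2
        have hq := (mem_filter.1 (Finset.mem_coe.1 hq)).2
        exact Prod.ext h (hp.trans hq.symm)
    rwa [Nat.card_Icc, Nat.add_sub_cancel] at h3
  have h2 := tele (k - 1) n n
  calc 2 * (k - 1) * (aps k n).card ≤ 2 * (k - 1) * ∑ d ∈ Icc 1 n, (n - (k - 1) * d) := Nat.mul_le_mul_left _ h1
    _ ≤ n ^ 2 := by omega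

lemma card_aps_ge (k n : ℕ) (hk : 2 ≤ k) : (n / 2) * (n / (2 * (k - 1))) ≤ (aps k n).card := by
  have h1 : (Icc 1 (n / 2) ×ˢ Icc 1 (n / (2 * (k - 1)))).card ≤ (aps k n).card := by
    apply Finset.card_le_card
    intro p hp
    rw [mem_product, mem_Icc, mem_Icc] at hp
    rw [mem_aps]
    obtain ⟨⟨h1, h2⟩, h3, h4⟩ := hp
    have h5 : 2 * (k - 1) * p.2 ≤ n := by
      calc 2 * (k - 1) * p.2 ≤ 2 * (k - 1) * (n / (2 * (k - 1))) := Nat.mul_le_mul_left _ h4
        _ ≤ n := Nat.mul_div_le _ _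
    have h6 : 2 * (k - 1) * p.2 = 2 * ((k - 1) * p.2) := by ring
    have h7 : p.2 ≤ (k - 1) * p.2 := Nat.le_mul_of_pos_left _ (by omega)
    omega
  rwa [card_product, Nat.card_Icc, Nat.card_Icc, Nat.add_sub_cancel, Nat.add_sub_cancel] at h1

/-! ### monochromatic progressions and interpolation -/

/-- the number of monochromatic progressions -/
def mono (k n : ℕ) {r : ℕ} (χ : ℕ → Fin r) : ℕ :=
  ((aps k n).filter (fun p => ∀ i < k, χ (p.1 + i * p.2) = χ p.1)).card

lemma in_range {k n : ℕ} {p : ℕ × ℕ} (hp : p ∈ aps k n) {i : ℕ} (hi : i < k) : 1 ≤ p.1 + i * p.2 ∧ p.1 + i * p.2 ≤ n := by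
  rw [mem_aps] at hp
  have : i * p.2 ≤ (k - 1) * p.2 := Nat.mul_le_mul_right _ (by omega)
  omega

lemma mono_congr {k n r : ℕ} (hk : 1 ≤ k) (χ χ' : ℕ → Fin r) (h : ∀ x, 1 ≤ x → x ≤ n → χ x = χ' x) :
    mono k n χ = mono k n χ' := by
  unfold mono
  congr 1
  apply Finset.filter_congr
  intro p hp
  have h0 := in_range hp (show 0 < k by omega)
  rw [zero_mul, add_zero] at h0
  constructor
  · intro h1 i hi
    have := in_range hp hi
    rw [← h _ this.1 this.2, ← h _ h0.1 h0.2]
    exact h1 i hi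
  · intro h1 i hi
    have := in_range hp hi
    rw [h _ this.1 this.2, h _ h0.1 h0.2]
    exact h1 i hi

lemma mono_const {k n r : ℕ} (c : Fin r) : mono k n (fun _ => c) = (aps k n).card := by
  unfold mono
  congr 1
  apply Finset.filter_true_of_mem
  intro _ _ _ _
  rfl

lemma mono_le {k n r : ℕ} (χ : ℕ → Fin r) : mono k n χ ≤ n ^ 2 := by
  unfold mono
  refine (Finset.card_le_card (Finset.filter_subset _ _)).trans ?_
  unfold aps
  refine (Finset.card_le_card (Finset.filter_subset _ _)).trans ?_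
  rw [card_product, Nat.card_Icc, Nat.add_sub_cancel]
  exact le_of_eq (sq n).symm

lemma mono_step {k n r : ℕ} (hk : 1 ≤ k) (χ : ℕ → Fin r) (c : Fin r) (m : ℕ) :
    mono k n (fun x => if x ≤ m + 1 then c else χ x) ≤ mono k n (fun x => if x ≤ m then c else χ x) + k * n := by
  unfold mono
  have h1 : (aps k n).filter (fun p => ∀ i < k, (fun x => if x ≤ m + 1 then c else χ x) (p.1 + i * p.2) = (fun x => if x ≤ m + 1 then c else χ x) p.1) ⊆
      (aps k n).filter (fun p => ∀ i < k, (fun x => if x ≤ m then c else χ x) (p.1 + i * p.2) = (fun x => if x ≤ m then c else χ x) p.1) ∪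
      (range k).biUnion (fun i => (aps k n).filter (fun p => p.1 + i * p.2 = m + 1)) := by
    intro p hp
    rw [mem_filter] at hp
    rw [mem_union]
    by_cases h : ∃ i < k, p.1 + i * p.2 = m + 1
    · right
      obtain ⟨i, hi, h2⟩ := h
      rw [mem_biUnion]
      exact ⟨i, Finset.mem_range.2 hi, mem_filter.2 ⟨hp.1, h2⟩⟩
    · left
      push Not at h
      rw [mem_filter]
      refine ⟨hp.1, ?_⟩
      have key : ∀ i < k, (if p.1 + i * p.2 ≤ m then c else χ (p.1 + i * p.2)) = (if p.1 + i * p.2 ≤ m + 1 then c else χ (p.1 + i * p.2)) := by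
        intro i hi
        have := h i hi
        by_cases h3 : p.1 + i * p.2 ≤ m
        · rw [if_pos h3, if_pos (by omega)]
        · rw [if_neg h3, if_neg (by omega)]
      intro i hi
      have k0 := key 0 (by omega)
      rw [zero_mul, add_zero] at k0
      simp only
      rw [key i hi, k0]
      exact hp.2 i hi
  refine (Finset.card_le_card h1).trans ((Finset.card_union_le _ _).trans ?_)
  apply Nat.add_le_add_left
  refine Finset.card_biUnion_le.trans ?_
  have h2 : ∀ i ∈ range k, ((aps k n).filter (fun p => p.1 + i * p.2 = m + 1)).card ≤ n := by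
    intro i _
    have h3 : ((aps k n).filter (fun p => p.1 + i * p.2 = m + 1)).card ≤ (Icc 1 n).card := by
      apply Finset.card_le_card_of_injOn (fun p => p.2)
      · intro p hp
        have hp := Finset.mem_coe.1 hp
        rw [mem_filter, mem_aps] at hp
        rw [Finset.mem_coe, mem_Icc]
        exact hp.1.2.1
      · intro p hp q hq h
        have hp := (mem_filter.1 (Finset.mem_coe.1 hp)).2
        have hq := (mem_filter.1 (Finset.mem_coe.1 hq)).2
        simp only at h
        rw [h] at hp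
        exact Prod.ext (by omega) h
    rwa [Nat.card_Icc, Nat.add_sub_cancel] at h3
  refine (Finset.sum_le_sum h2).trans ?_
  rw [Finset.sum_const, Finset.card_range, smul_eq_mul]

/-- the discrete intermediate value theorem -/
lemma interpolate {k n r : ℕ} (hk : 1 ≤ k) (χ : ℕ → Fin r) (c : Fin r) (t : ℝ) (h1 : (mono k n χ : ℝ) ≤ t)
    (h2 : t ≤ ((aps k n).card : ℝ)) : ∃ χ' : ℕ → Fin r, |(mono k n χ' : ℝ) - t| ≤ k * n := by
  classical
  have hex : ∃ m, t ≤ (mono k n (fun x => if x ≤ m then c else χ x) : ℝ) := by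
    refine ⟨n, ?_⟩
    rw [mono_congr hk (fun x => if x ≤ n then c else χ x) (fun _ => c), mono_const]
    · exact h2
    · intro x _ hx
      rw [if_pos hx]
  have hm := Nat.find_spec hex
  have hmin : ∀ m' < Nat.find hex, ¬ t ≤ (mono k n (fun x => if x ≤ m' then c else χ x) : ℝ) := fun m' h => Nat.find_min hex h
  rcases Nat.eq_zero_or_eq_succ_pred (Nat.find hex) with h0 | h0
  · refine ⟨χ, ?_⟩
    rw [h0] at hm
    rw [mono_congr hk (fun x => if x ≤ 0 then c else χ x) χ] at hm
    · have : (mono k n χ : ℝ) = t := le_antisymm h1 hm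
      rw [this, sub_self, abs_zero]
      positivity
    · intro x hx _
      rw [if_neg (by omega)]
  · obtain ⟨m', hm'⟩ : ∃ m', Nat.find hex = m' + 1 := ⟨_, h0⟩
    rw [hm'] at hm
    refine ⟨fun x => if x ≤ m' + 1 then c else χ x, abs_le.2 ⟨?_, ?_⟩⟩
    · have : (0 : ℝ) ≤ k * n := by positivity
      linarith
    · have h3 := hmin m' (by omega)
      push Not at h3
      have h4 : (mono k n (fun x => if x ≤ m' + 1 then c else χ x) : ℝ) ≤ (mono k n (fun x => if x ≤ m' then c else χ x) : ℝ) + k * n := by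
        exact_mod_cast mono_step hk χ c m'
      linarith

end Pool.Agent.Q253.Beat
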