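import Pool.Agent.Q253.BeatB

set_option autoImplicit false

namespace Pool.Agent.Q253.Beat
open Finset

/-- extension of a colouring of `Fin (n + 1)` -/
def ext {n r : ℕ} (c0 : Fin r) (χ : Fin (n + 1) → Fin r) (x : ℕ) : Fin r :=
  if h : x < n + 1 then χ ⟨x, h⟩ else c0

/-- marginals of the product distribution -/
lemma marginal {n r : ℕ} (q : ℕ → Fin r → ℝ) (hq : ∀ x, ∑ c, q x c = 1) (S : Finset (Fin (n + 1))) (c : Fin r) :
    ∑ χ : Fin (n + 1) → Fin r, (∏ x, q x.1 (χ x)) * (if ∀ x ∈ S, χ x = c then 1 else 0) = ∏ x ∈ S, q x.1 c := by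
  have h1 : ∀ χ : Fin (n + 1) → Fin r, (∏ x, q x.1 (χ x)) * (if ∀ x ∈ S, χ x = c then (1 : ℝ) else 0) =
      ∏ x, (q x.1 (χ x) * (if x ∈ S → χ x = c then 1 else 0)) := by
    intro χ
    rw [Finset.prod_mul_distrib]
    congr 1
    by_cases h : ∀ x ∈ S, χ x = c
    · rw [if_pos h]
      symm
      apply Finset.prod_eq_one
      intro x _
      rw [if_pos (h x)]
    · rw [if_neg h]
      push Not at h
      obtain ⟨x, hx, hxc⟩ := h
      symm
      apply Finset.prod_eq_zero (Finset.mem_univ x)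
      rw [if_neg]
      intro h2
      exact hxc (h2 hx)
  rw [Finset.sum_congr rfl (fun χ _ => h1 χ)]
  have h2 : ∑ χ : Fin (n + 1) → Fin r, ∏ x, (q x.1 (χ x) * (if x ∈ S → χ x = c then (1 : ℝ) else 0)) =
      ∏ x : Fin (n + 1), ∑ c' : Fin r, (q x.1 c' * (if x ∈ S → c' = c then (1 : ℝ) else 0)) := by
    rw [Finset.prod_univ_sum, Fintype.piFinset_univ]
  rw [h2]
  have h3 : ∀ x : Fin (n + 1), ∑ c' : Fin r, (q x.1 c' * (if x ∈ S → c' = c then (1 : ℝ) else 0)) =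
      if x ∈ S then q x.1 c else 1 := by
    intro x
    by_cases hx : x ∈ S
    · rw [if_pos hx]
      rw [Finset.sum_eq_single c]
      · rw [if_pos (fun _ => rfl), mul_one]
      · intro c' _ hc
        rw [if_neg (fun h => hc (h hx)), mul_zero]
      · intro h
        exact absurd (Finset.mem_univ c) h
    · rw [if_neg hx]
      refine Eq.trans ?_ (hq x.1)
      apply Finset.sum_congr rfl
      intro c' _
      rw [if_pos (fun h => absurd h hx), mul_one]
  rw [Finset.prod_congr rfl (fun x _ => h3 x), Finset.prod_ite_mem, Finset.univ_inter]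

lemma marginal_ap {k n r : ℕ} (q : ℕ → Fin r → ℝ) (hq : ∀ x, ∑ c, q x c = 1) (c0 c : Fin r) (p : ℕ × ℕ) (hp : p ∈ aps k n) :
    ∑ χ : Fin (n + 1) → Fin r, (∏ x, q x.1 (χ x)) * (if ∀ i < k, ext c0 χ (p.1 + i * p.2) = c then (1 : ℝ) else 0) =
      ∏ i ∈ range k, q (p.1 + i * p.2) c := by
  have hp2 : 1 ≤ p.2 := (mem_aps.1 hp).2.1.1
  set S : Finset (Fin (n + 1)) := univ.filter (fun x => ∃ i < k, x.1 = p.1 + i * p.2) with hS
  have h1 : ∀ χ : Fin (n + 1) → Fin r, (∀ i < k, ext c0 χ (p.1 + i * p.2) = c) ↔ (∀ x ∈ S, χ x = c) := by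
    intro χ
    constructor
    · intro h x hx
      rw [hS, mem_filter] at hx
      obtain ⟨_, i, hi, hxi⟩ := hx
      have h2 := h i hi
      unfold ext at h2
      rw [dif_pos (by rw [← hxi]; exact x.2)] at h2
      rw [← h2]
      congr 1
      exact Fin.ext hxi
    · intro h i hi
      have h3 := in_range hp hi
      unfold ext
      rw [dif_pos (by omega)]
      apply h
      rw [hS, mem_filter]
      exact ⟨Finset.mem_univ _, i, hi, rfl⟩
  have h2 : ∀ χ : Fin (n + 1) → Fin r, (if ∀ i < k, ext c0 χ (p.1 + i * p.2) = c then (1 : ℝ) else 0) = (if ∀ x ∈ S, χ x = c then (1 : ℝ) else 0) := by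
    intro χ
    by_cases h : ∀ x ∈ S, χ x = c
    · rw [if_pos h, if_pos ((h1 χ).2 h)]
    · rw [if_neg h, if_neg (fun h' => h ((h1 χ).1 h'))]
  rw [Finset.sum_congr rfl (fun χ _ => by rw [h2 χ]), marginal q hq S c]
  symm
  apply Finset.prod_bij (fun i hi => (⟨p.1 + i * p.2, by
    have := in_range hp (Finset.mem_range.1 hi)
    omega⟩ : Fin (n + 1)))
  · intro i hi
    rw [hS, mem_filter]
    exact ⟨Finset.mem_univ _, i, Finset.mem_range.1 hi, rfl⟩
  · intro i _ j _ hij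
    have := Fin.mk.inj_iff.1 hij
    exact Nat.eq_of_mul_eq_mul_right (by omega) (Nat.add_left_cancel this)
  · intro x hx
    rw [hS, mem_filter] at hx
    obtain ⟨_, i, hi, hxi⟩ := hx
    exact ⟨i, Finset.mem_range.2 hi, Fin.ext hxi.symm⟩
  · intro i _
    rfl

lemma mono_eq_sum {k n r : ℕ} (hk : 1 ≤ k) (χ : ℕ → Fin r) :
    (mono k n χ : ℝ) = ∑ p ∈ aps k n, ∑ c : Fin r, (if ∀ i < k, χ (p.1 + i * p.2) = c then (1 : ℝ) else 0) := by
  unfold mono
  rw [Finset.card_filter]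
  push_cast
  apply Finset.sum_congr rfl
  intro p _
  rw [Finset.sum_eq_single (χ p.1)]
  · intro c _ hc
    rw [if_neg]
    intro h
    have := h 0 (by omega)
    rw [zero_mul, add_zero] at this
    exact hc this.symm
  · intro h
    exact absurd (Finset.mem_univ _) h

/-- derandomisation -/
lemma exists_le_mean {k n r : ℕ} (hk : 1 ≤ k) (hr : 0 < r) (q : ℕ → Fin r → ℝ) (hq : ∀ x, ∑ c, q x c = 1) (hq0 : ∀ x c, 0 < q x c) :
    ∃ χ : ℕ → Fin r, (mono k n χ : ℝ) ≤ ∑ p ∈ aps k n, ∑ c : Fin r, ∏ i ∈ range k, q (p.1 + i * p.2) c := by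
  set E := ∑ p ∈ aps k n, ∑ c : Fin r, ∏ i ∈ range k, q (p.1 + i * p.2) c with hE
  have h1 : ∑ χ : Fin (n + 1) → Fin r, (∏ x, q x.1 (χ x)) * (mono k n (ext ⟨0, hr⟩ χ) : ℝ) = E := by
    have e1 : ∀ χ : Fin (n + 1) → Fin r, (∏ x, q x.1 (χ x)) * (mono k n (ext ⟨0, hr⟩ χ) : ℝ) =
        ∑ p ∈ aps k n, ∑ c : Fin r, (∏ x, q x.1 (χ x)) * (if ∀ i < k, ext ⟨0, hr⟩ χ (p.1 + i * p.2) = c then (1 : ℝ) else 0) := by
      intro χ
      rw [mono_eq_sum hk, Finset.mul_sum]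
      apply Finset.sum_congr rfl
      intro p _
      rw [Finset.mul_sum]
    rw [Finset.sum_congr rfl (fun χ _ => e1 χ), Finset.sum_comm]
    apply Finset.sum_congr rfl
    intro p hp
    rw [Finset.sum_comm]
    apply Finset.sum_congr rfl
    intro c _
    exact marginal_ap q hq _ c p hp
  have h2 : ∑ χ : Fin (n + 1) → Fin r, (∏ x, q x.1 (χ x)) * E = E := by
    rw [← Finset.sum_mul]
    have := marginal (n := n) q hq ∅ ⟨0, hr⟩
    simp only [Finset.notMem_empty, IsEmpty.forall_iff, implies_true, if_true, mul_one, Finset.prod_empty] at this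
    rw [this, one_mul]
  have h3 : ∃ χ ∈ (univ : Finset (Fin (n + 1) → Fin r)), (∏ x, q x.1 (χ x)) * (mono k n (ext ⟨0, hr⟩ χ) : ℝ) ≤ (∏ x, q x.1 (χ x)) * E := by
    have : Nonempty (Fin r) := ⟨⟨0, hr⟩⟩
    apply Finset.exists_le_of_sum_le Finset.univ_nonempty
    rw [h1, h2]
  obtain ⟨χ, _, h4⟩ := h3
  refine ⟨ext ⟨0, hr⟩ χ, ?_⟩
  have h5 : 0 < ∏ x : Fin (n + 1), q x.1 (χ x) := Finset.prod_pos (fun x _ => hq0 _ _)
  exact le_of_mul_le_mul_left h4 h5

end Pool.Agent.Q253.Beat
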