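import Mathlib

set_option autoImplicit false

/-!
# Pairs of total dominating sets in cubic graphs

A set `Z` of vertices is closed if `N(v) ⊆ Z` whenever `v` has a neighbour in `Z`.  Let `R` be a
minimal set of vertices meeting every nonempty closed set.  The neighbourhoods avoiding `R` are
properly 2-coloured (by the signs of a kernel vector); each of them pins at most one vertex, so every
closed set contains a vertex outside `R` which is pinned by none.  This gives two total dominating
sets which meet in `R` and miss exactly a second minimal set `R'`.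
-/

namespace Pool.Agent.Q253.CubicTD

open Finset

variable {V : Type*} [Fintype V] [DecidableEq V] (G : SimpleGraph V) [DecidableRel G.Adj]

/-- closed sets -/
def Closed (Z : Finset V) : Prop := ∀ z ∈ Z, ∀ v, G.Adj v z → ∀ u, G.Adj v u → u ∈ Z

/-- `R` meets every nonempty closed set -/
def Hits (R : Finset V) : Prop := ∀ Z : Finset V, Z.Nonempty → Closed G Z → ∃ r ∈ R, r ∈ Z

/-- minimal hitting sets -/
def MinHits (R : Finset V) : Prop := Hits G R ∧ ∀ R' ⊆ R, Hits G R' → R' = R

/-- the neighbourhoods inside `Z` -/
def inner (Z : Finset V) : Finset V := univ.filter fun e => G.neighborFinset e ⊆ Z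

theorem mem_inner (Z : Finset V) (e : V) : e ∈ inner G Z ↔ ∀ u, G.Adj e u → u ∈ Z := by
  unfold inner
  rw [mem_filter]
  constructor
  · intro h u hu
    exact h.2 (by simpa using hu)
  · intro h
    refine ⟨mem_univ _, fun u hu => h u (by simpa using hu)⟩

variable (h3 : G.IsRegularOfDegree 3)
include h3

theorem card_nb (v : V) : (G.neighborFinset v).card = 3 := h3 v

theorem count (Z : Finset V) : ∑ e ∈ inner G Z, 3 = ∑ z ∈ Z, ((G.neighborFinset z).filter
    fun e => e ∈ inner G Z).card := by
  have h1 : ∑ e ∈ inner G Z, 3 = ∑ e ∈ inner G Z, (Z.filter fun z => G.Adj e z).card := by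
    refine sum_congr rfl fun e he => ?_
    rw [← card_nb G h3 e]
    congr 1
    ext u
    rw [mem_filter, SimpleGraph.mem_neighborFinset]
    exact ⟨fun h => ⟨(mem_inner G Z e).mp he u h, h⟩, fun h => h.2⟩
  have h2 : ∑ e ∈ inner G Z, (Z.filter fun z => G.Adj e z).card =
      ∑ z ∈ Z, ((inner G Z).filter fun e => G.Adj e z).card :=
    Finset.sum_card_bipartiteAbove_eq_sum_card_bipartiteBelow (fun e z => G.Adj e z)
  rw [h1, h2]
  refine sum_congr rfl fun z _ => ?_
  congr 1
  ext e
  simp only [mem_filter, SimpleGraph.mem_neighborFinset]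
  rw [G.adj_comm z e]
  tauto

theorem inner_le (Z : Finset V) : (inner G Z).card ≤ Z.card := by
  have h := count G h3 Z
  have h2 : ∑ z ∈ Z, ((G.neighborFinset z).filter fun e => e ∈ inner G Z).card ≤ ∑ z ∈ Z, 3 := by
    refine sum_le_sum fun z _ => ?_
    rw [← card_nb G h3 z]
    exact card_le_card (filter_subset _ _)
  rw [← h, sum_const, sum_const, smul_eq_mul, smul_eq_mul] at h2
  omega

theorem inner_lt (Z : Finset V) (hZ : ¬ Closed G Z) : (inner G Z).card < Z.card := by
  have h := count G h3 Z
  have h2 : ∑ z ∈ Z, ((G.neighborFinset z).filter fun e => e ∈ inner G Z).card < ∑ z ∈ Z, 3 := by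
    unfold Closed at hZ
    push Not at hZ
    obtain ⟨z, hz, v, hv, u, hu, hu'⟩ := hZ
    apply sum_lt_sum
    · intro z _
      rw [← card_nb G h3 z]
      exact card_le_card (filter_subset _ _)
    · refine ⟨z, hz, ?_⟩
      rw [← card_nb G h3 z]
      apply card_lt_card
      rw [filter_ssubset]
      refine ⟨v, ?_, ?_⟩
      · rw [SimpleGraph.mem_neighborFinset]; exact hv.symm
      · intro h
        exact hu' ((mem_inner G Z v).mp h u hu)
  rw [← h, sum_const, sum_const, smul_eq_mul, smul_eq_mul] at h2
  omega

/-- 2-colouring lemma -/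
theorem coloring (k : ℕ) : ∀ Z : Finset V, Z.card ≤ k →
    (∀ Y ⊆ Z, Y.Nonempty → ¬ Closed G Y) →
    ∃ c : V → Bool, ∀ e ∈ inner G Z, ∃ u u', G.Adj e u ∧ G.Adj e u' ∧ c u ≠ c u' := by
  induction k with
  | zero =>
    intro Z hk _
    refine ⟨fun _ => true, fun e he => ?_⟩
    have hZ : Z = ∅ := card_eq_zero.mp (by omega)
    have h1 := card_nb G h3 e
    have : (G.neighborFinset e).Nonempty := card_pos.mp (by omega)
    obtain ⟨u, hu⟩ := this
    have := (mem_inner G Z e).mp he u (by simpa using hu)
    rw [hZ] at this
    simp at this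
  | succ k ih =>
    intro Z hk hY
    by_cases hne : Z.Nonempty
    · have hlt := inner_lt G h3 Z (hY Z (Subset.refl _) hne)
      -- kernel vector
      let f : (Z → ℝ) →ₗ[ℝ] (inner G Z → ℝ) :=
        { toFun := fun x e => ∑ z : Z, if G.Adj e z then x z else 0
          map_add' := by
            intro x y
            funext e
            simp only [Pi.add_apply]
            rw [← sum_add_distrib]
            refine sum_congr rfl fun z _ => ?_
            split_ifs <;> simp
          map_smul' := by
            intro r x
            funext e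
            simp only [Pi.smul_apply, smul_eq_mul, RingHom.id_apply]
            rw [mul_sum]
            refine sum_congr rfl fun z _ => ?_
            split_ifs <;> simp }
      have hker : LinearMap.ker f ≠ ⊥ := by
        apply LinearMap.ker_ne_bot_of_finrank_lt
        simpa using hlt
      obtain ⟨x, hx, hx0⟩ := Submodule.exists_mem_ne_zero_of_ne_bot hker
      rw [LinearMap.mem_ker] at hx
      have hx' : ∀ e : inner G Z, ∑ z : Z, (if G.Adj e z then x z else 0) = 0 :=
        fun e => congrFun hx e
      -- support
      let Z' : Finset V := Z.filter fun z => ∀ h : z ∈ Z, x ⟨z, h⟩ = 0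
      have hZ' : Z'.card ≤ k := by
        have : Z' ⊂ Z := by
          rw [filter_ssubset]
          obtain ⟨⟨z, hz⟩, hzx⟩ := Function.ne_iff.mp hx0
          exact ⟨z, hz, fun h => hzx (h hz)⟩
        have := card_lt_card this
        omega
      obtain ⟨c', hc'⟩ := ih Z' hZ' (fun Y hYZ => hY Y (hYZ.trans (filter_subset _ _)))
      let X : V → ℝ := fun z => if h : z ∈ Z then x ⟨z, h⟩ else 0
      refine ⟨fun z => if X z = 0 then c' z else decide (0 < X z), fun e he => ?_⟩
      have hsum : ∑ z ∈ G.neighborFinset e, X z = 0 := by
        have h1 := hx' ⟨e, he⟩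
        have h2 : ∑ z : Z, (if G.Adj e z then x z else 0) = ∑ z ∈ Z, if G.Adj e z then X z else 0 := by
          rw [← Finset.sum_coe_sort Z (fun z => if G.Adj e z then X z else 0)]
          refine sum_congr rfl fun z _ => ?_
          have : X z = x z := by
            simp only [X, z.2, dif_pos]
          rw [this]
        rw [h2, ← sum_filter] at h1
        rw [← h1]
        apply sum_congr _ (fun _ _ => rfl)
        ext u
        rw [mem_filter, SimpleGraph.mem_neighborFinset]
        exact ⟨fun h => ⟨(mem_inner G Z e).mp he u h, h⟩, fun h => h.2⟩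
      by_cases hall : ∀ u, G.Adj e u → X u = 0
      · have he' : e ∈ inner G Z' := by
          rw [mem_inner]
          intro u hu
          have huZ := (mem_inner G Z e).mp he u hu
          refine mem_filter.mpr ⟨huZ, fun h => ?_⟩
          have := hall u hu
          simpa only [X, dif_pos h] using this
        obtain ⟨u, u', hu, hu', hcc⟩ := hc' e he'
        refine ⟨u, u', hu, hu', ?_⟩
        simp only [hall u hu, hall u' hu', if_true]
        exact hcc
      · push Not at hall
        obtain ⟨u, hu, hXu⟩ := hall
        have hpos : ∃ p ∈ G.neighborFinset e, 0 < X p := by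
          by_contra hcon
          push Not at hcon
          have := (sum_eq_zero_iff_of_nonpos hcon).mp hsum u (by simpa using hu)
          exact hXu this
        have hneg : ∃ p ∈ G.neighborFinset e, X p < 0 := by
          by_contra hcon
          push Not at hcon
          have := (sum_eq_zero_iff_of_nonneg hcon).mp hsum u (by simpa using hu)
          exact hXu this
        obtain ⟨p, hp, hp0⟩ := hpos
        obtain ⟨q, hq, hq0⟩ := hneg
        refine ⟨p, q, by simpa using hp, by simpa using hq, ?_⟩
        have e1 : X p ≠ 0 := ne_of_gt hp0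
        have e2 : X q ≠ 0 := ne_of_lt hq0
        simp only [e1, e2, if_false]
        simp [hp0, not_lt.mpr hq0.le]
    · rw [not_nonempty_iff_eq_empty] at hne
      subst hne
      exact ih ∅ (by simp) hY

end Pool.Agent.Q253.CubicTD
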