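import Pool.Agent.Q253.CubicTD

set_option autoImplicit false

/-!
# Pairs of total dominating sets in cubic graphs, II
-/

namespace Pool.Agent.Q253.CubicTD

open Finset

variable {V : Type*} [Fintype V] [DecidableEq V] (G : SimpleGraph V) [DecidableRel G.Adj]

omit [Fintype V] [DecidableRel G.Adj] in
theorem atMostOne {R : Finset V} (hR : MinHits G R) {e a b : V} (ha : a ∈ R) (hb : b ∈ R)
    (hea : G.Adj e a) (heb : G.Adj e b) : a = b := by
  by_contra hab
  have h : R.erase a = R := by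
    refine hR.2 _ (erase_subset _ _) ?_
    intro Z hZ hc
    obtain ⟨r, hr, hrZ⟩ := hR.1 Z hZ hc
    by_cases hra : r = a
    · subst hra
      exact ⟨b, mem_erase.mpr ⟨fun h => hab h.symm, hb⟩, hc r hrZ e hea b heb⟩
    · exact ⟨r, mem_erase.mpr ⟨hra, hr⟩, hrZ⟩
  rw [← h] at ha
  simp at ha

omit [DecidableEq V] [Fintype V] [DecidableRel G.Adj] in
theorem exists_minHits (k : ℕ) : ∀ F : Finset V, F.card ≤ k → Hits G F →
    ∃ R ⊆ F, MinHits G R := by
  induction k with
  | zero =>
    intro F hk hF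
    refine ⟨F, Subset.refl _, hF, fun R' hR' _ => ?_⟩
    have : F = ∅ := card_eq_zero.mp (by omega)
    subst this
    exact subset_empty.mp hR'
  | succ k ih =>
    intro F hk hF
    by_cases h : ∀ R' ⊆ F, Hits G R' → R' = F
    · exact ⟨F, Subset.refl _, hF, h⟩
    · push Not at h
      obtain ⟨R', hsub, hR', hne⟩ := h
      have : R'.card < F.card := card_lt_card (ssubset_of_subset_of_ne hsub hne)
      obtain ⟨R, hR, hm⟩ := ih R' (by omega) hR'
      exact ⟨R, hR.trans hsub, hm⟩

variable (h3 : G.IsRegularOfDegree 3)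
include h3

/-- the counting step: a closed set `Z` satisfies `#{e inside Z, N(e) ∩ R = ∅} + 3 |Z ∩ R| ≤ |Z|` -/
theorem count_closed {R : Finset V} (hR : MinHits G R) {Z : Finset V} (hZ : Closed G Z) :
    ((inner G Z).filter fun e => ∀ u, G.Adj e u → u ∉ R).card + 3 * (Z.filter (· ∈ R)).card
      ≤ Z.card := by
  have h1 := inner_le G h3 Z
  have h2 : ((Z.filter (· ∈ R)).biUnion fun r => G.neighborFinset r).card =
      3 * (Z.filter (· ∈ R)).card := by
    rw [card_biUnion]
    · rw [sum_congr rfl (fun r _ => card_nb G h3 r), sum_const, smul_eq_mul, mul_comm]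
    · intro a ha b hb hab
      change Disjoint (G.neighborFinset a) (G.neighborFinset b)
      rw [Finset.disjoint_left]
      intro e hea heb
      rw [SimpleGraph.mem_neighborFinset] at hea heb
      exact hab (atMostOne G hR (mem_filter.mp ha).2 (mem_filter.mp hb).2 hea.symm heb.symm)
  have h3' : ((inner G Z).filter fun e => ∀ u, G.Adj e u → u ∉ R) ∪
      ((Z.filter (· ∈ R)).biUnion fun r => G.neighborFinset r) ⊆ inner G Z := by
    intro e he
    rcases mem_union.mp he with he | he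
    · exact (mem_filter.mp he).1
    · obtain ⟨r, hr, her⟩ := mem_biUnion.mp he
      rw [SimpleGraph.mem_neighborFinset] at her
      rw [mem_inner]
      exact hZ r (mem_filter.mp hr).1 e her.symm
  have hdis : Disjoint ((inner G Z).filter fun e => ∀ u, G.Adj e u → u ∉ R)
      ((Z.filter (· ∈ R)).biUnion fun r => G.neighborFinset r) := by
    rw [Finset.disjoint_left]
    intro e he he'
    obtain ⟨r, hr, her⟩ := mem_biUnion.mp he'
    rw [SimpleGraph.mem_neighborFinset] at her
    exact (mem_filter.mp he).2 r her.symm (mem_filter.mp hr).2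
  have h4 := card_le_card h3'
  rw [card_union_of_disjoint hdis, h2] at h4
  omega

/-- one step of the construction -/
theorem step (R : Finset V) (hR : MinHits G R) :
    ∃ R' T T' : Finset V, MinHits G R' ∧ (∀ v, ∃ u ∈ T, G.Adj v u) ∧ (∀ v, ∃ u ∈ T', G.Adj v u) ∧
      ∀ x, (if x ∈ T then (1 : ℝ) else 0) + (if x ∈ T' then 1 else 0) =
        1 + (if x ∈ R then 1 else 0) - (if x ∈ R' then 1 else 0) := by
  classical
  -- the colouring
  obtain ⟨c, hc⟩ := coloring G h3 (univ.filter fun x => x ∉ R).card (univ.filter fun x => x ∉ R)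
    le_rfl (by
      intro Y hY hne hcl
      obtain ⟨r, hr, hrY⟩ := hR.1 Y hne hcl
      exact (mem_filter.mp (hY hrY)).2 hr)
  have hc' : ∀ e, (∀ u, G.Adj e u → u ∉ R) → ∃ u u', G.Adj e u ∧ G.Adj e u' ∧ c u ≠ c u' := by
    intro e he
    apply hc
    rw [mem_inner]
    exact fun u hu => mem_filter.mpr ⟨mem_univ _, he u hu⟩
  -- free vertices
  let F : Finset V := univ.filter fun u => u ∉ R ∧ ∀ e, G.Adj e u → (∀ u, G.Adj e u → u ∉ R) →
    ∃ a b, a ≠ u ∧ b ≠ u ∧ G.Adj e a ∧ G.Adj e b ∧ c a ≠ c b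
  have hF : Hits G F := by
    intro Z hne hcl
    by_contra hcon
    push Not at hcon
    have hpin : ∀ u ∈ Z.filter (· ∉ R), ∃ e, G.Adj e u ∧ (∀ u, G.Adj e u → u ∉ R) ∧
        ∀ a b, a ≠ u → b ≠ u → G.Adj e a → G.Adj e b → c a = c b := by
      intro u hu
      rw [mem_filter] at hu
      by_contra hno
      push Not at hno
      refine hcon u ?_ hu.1
      refine mem_filter.mpr ⟨mem_univ _, hu.2, fun e he1 he2 => ?_⟩
      obtain ⟨a, b, h1, h2, h3, h4, h5⟩ := hno e he1 he2
      exact ⟨a, b, h1, h2, h3, h4, h5⟩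
    choose! f hf1 hf2 hf3 using hpin
    have hinj : Set.InjOn f (Z.filter (· ∉ R) : Finset V) := by
      intro u hu u' hu' huu
      by_contra hne'
      have hu := Finset.mem_coe.mp hu
      have hu' := Finset.mem_coe.mp hu'
      obtain ⟨p, q, hp, hq, hpq⟩ := hc' (f u) (hf2 u hu)
      have A := hf3 u hu
      have B := hf3 u' hu'
      rw [← huu] at B
      have e1 := hf1 u hu
      have e2 := hf1 u' hu'
      rw [← huu] at e2
      -- third vertex
      have hx : ∃ x, G.Adj (f u) x ∧ x ≠ u ∧ x ≠ u' := by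
        have h1 := card_nb G h3 (f u)
        have h2 : (((G.neighborFinset (f u)).erase u).erase u').Nonempty := by
          rw [← card_pos]
          have := Finset.pred_card_le_card_erase (s := G.neighborFinset (f u)) (a := u)
          have := Finset.pred_card_le_card_erase (s := (G.neighborFinset (f u)).erase u) (a := u')
          omega
        obtain ⟨x, hx⟩ := h2
        rw [mem_erase, mem_erase, SimpleGraph.mem_neighborFinset] at hx
        exact ⟨x, hx.2.2, hx.2.1, hx.1⟩
      obtain ⟨x, hx, hxu, hxu'⟩ := hx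
      have hall : ∀ y, G.Adj (f u) y → c y = c x := by
        intro y hy
        by_cases hyu : y = u
        · exact B y x (by rw [hyu]; exact hne') hxu' hy hx
        · exact A y x hyu hxu hy hx
      exact hpq ((hall p hp).trans (hall q hq).symm)
    have hcard : (Z.filter (· ∉ R)).card ≤
        ((inner G Z).filter fun e => ∀ u, G.Adj e u → u ∉ R).card := by
      refine card_le_card_of_injOn f ?_ hinj
      intro u hu
      have hu := Finset.mem_coe.mp hu
      refine Finset.mem_coe.mpr (mem_filter.mpr ⟨?_, hf2 u hu⟩)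
      rw [mem_inner]
      exact hcl u (mem_filter.mp hu).1 _ (hf1 u hu)
    have hcc := count_closed G h3 hR hcl
    have hsplit := card_filter_add_card_filter_not (s := Z) (· ∈ R)
    obtain ⟨r, hr, hrZ⟩ := hR.1 Z hne hcl
    have hpos : 0 < (Z.filter (· ∈ R)).card := card_pos.mpr ⟨r, mem_filter.mpr ⟨hrZ, hr⟩⟩
    omega
  obtain ⟨R', hR'F, hR'⟩ := exists_minHits G F.card F le_rfl hF
  have hdis : ∀ x ∈ R', x ∉ R := fun x hx => (mem_filter.mp (hR'F hx)).2.1
  have hdom : ∀ b : Bool, ∀ v, ∃ u ∈ univ.filter (fun x => x ∈ R ∨ (x ∉ R' ∧ c x = b)),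
      G.Adj v u := by
    intro b v
    by_cases hv : ∃ u ∈ R, G.Adj v u
    · obtain ⟨u, hu, hvu⟩ := hv
      exact ⟨u, mem_filter.mpr ⟨mem_univ _, Or.inl hu⟩, hvu⟩
    · push Not at hv
      have hv' : ∀ u, G.Adj v u → u ∉ R := fun u hu hR => hv u hR hu
      -- two neighbours outside R' with different colours
      have key : ∃ p q, G.Adj v p ∧ G.Adj v q ∧ p ∉ R' ∧ q ∉ R' ∧ c p ≠ c q := by
        by_cases hvR : ∃ u ∈ R', G.Adj v u
        · obtain ⟨u, hu, hvu⟩ := hvR
          obtain ⟨p, q, hp, hq, hvp, hvq, hpq⟩ := (mem_filter.mp (hR'F hu)).2.2 v hvu hv'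
          refine ⟨p, q, hvp, hvq, fun h => hp (atMostOne G hR' h hu hvp hvu),
            fun h => hq (atMostOne G hR' h hu hvq hvu), hpq⟩
        · push Not at hvR
          obtain ⟨p, q, hp, hq, hpq⟩ := hc' v hv'
          exact ⟨p, q, hp, hq, fun h => hvR p h hp, fun h => hvR q h hq, hpq⟩
      obtain ⟨p, q, hp, hq, hpR, hqR, hpq⟩ := key
      by_cases hpb : c p = b
      · exact ⟨p, mem_filter.mpr ⟨mem_univ _, Or.inr ⟨hpR, hpb⟩⟩, hp⟩
      · refine ⟨q, mem_filter.mpr ⟨mem_univ _, Or.inr ⟨hqR, ?_⟩⟩, hq⟩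
        revert hpb hpq
        cases c p <;> cases c q <;> cases b <;> simp
  refine ⟨R', univ.filter (fun x => x ∈ R ∨ (x ∉ R' ∧ c x = true)),
    univ.filter (fun x => x ∈ R ∨ (x ∉ R' ∧ c x = false)), hR', hdom true, hdom false, ?_⟩
  intro x
  have hd := hdis x
  by_cases h1 : x ∈ R
  · have h2 : x ∉ R' := fun h => hd h h1
    simp [h1, h2]
  · by_cases h2 : x ∈ R'
    · simp [h1, h2]
    · cases hcx : c x <;> simp [h1, h2, hcx]

theorem main : ∃ w : Finset V → ℝ,
        (∀ S, 0 ≤ w S) ∧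
        (∀ S, w S ≠ 0 → ∀ v : V, ∃ u ∈ S, G.Adj v u) ∧
        (∀ v : V, ∑ S ∈ Finset.univ.filter (fun S : Finset V => v ∈ S), w S ≤ 1) ∧
        2 ≤ ∑ S, w S := by
  classical
  have hstep : ∀ R : {R : Finset V // MinHits G R}, ∃ R' : {R : Finset V // MinHits G R},
      ∃ T T' : Finset V, (∀ v, ∃ u ∈ T, G.Adj v u) ∧ (∀ v, ∃ u ∈ T', G.Adj v u) ∧
      ∀ x, (if x ∈ T then (1 : ℝ) else 0) + (if x ∈ T' then 1 else 0) =
        1 + (if x ∈ R.1 then 1 else 0) - (if x ∈ R'.1 then 1 else 0) := by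
    intro R
    obtain ⟨R', T, T', h1, h2, h3', h4⟩ := step G h3 R.1 R.2
    exact ⟨⟨R', h1⟩, T, T', h2, h3', h4⟩
  choose nxt T T' hT hT' hrel using hstep
  obtain ⟨R0, -, hR0⟩ := exists_minHits G (univ : Finset V).card univ le_rfl
    (fun Z hZ _ => by
      obtain ⟨z, hz⟩ := hZ
      exact ⟨z, mem_univ _, hz⟩)
  let s : ℕ → {R : Finset V // MinHits G R} := fun t => nxt^[t] ⟨R0, hR0⟩
  have hs : ∀ t, s (t + 1) = nxt (s t) := fun t => Function.iterate_succ_apply' nxt t _
  obtain ⟨m, n, hmn, hsmn⟩ : ∃ m n, m < n ∧ s m = s n := by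
    obtain ⟨m, n, hne, heq⟩ := Finite.exists_ne_map_eq_of_infinite s
    rcases lt_or_gt_of_ne hne with h | h
    · exact ⟨m, n, h, heq⟩
    · exact ⟨n, m, h, heq.symm⟩
  have hpos : (0 : ℝ) < (n : ℝ) - m := by
    have : (m : ℝ) < n := by exact_mod_cast hmn
    linarith
  have hgen : ∀ A : Finset (Finset V), ∑ S ∈ A, (((n : ℝ) - m)⁻¹ * ∑ t ∈ Ico m n,
      ((if T (s t) = S then (1 : ℝ) else 0) + (if T' (s t) = S then 1 else 0))) =
      ((n : ℝ) - m)⁻¹ * ∑ t ∈ Ico m n,
      ((if T (s t) ∈ A then (1 : ℝ) else 0) + (if T' (s t) ∈ A then 1 else 0)) := by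
    intro A
    rw [← mul_sum, sum_comm]
    congr 1
    refine sum_congr rfl fun t _ => ?_
    rw [sum_add_distrib, sum_ite_eq, sum_ite_eq]
  refine ⟨fun S => ((n : ℝ) - m)⁻¹ * ∑ t ∈ Ico m n,
      ((if T (s t) = S then (1 : ℝ) else 0) + (if T' (s t) = S then 1 else 0)), ?_, ?_, ?_, ?_⟩
  · intro S
    refine mul_nonneg (inv_nonneg.mpr hpos.le) (sum_nonneg fun t _ => ?_)
    split_ifs <;> norm_num
  · intro S hS
    have hne := right_ne_zero_of_mul hS
    obtain ⟨t, _, ht⟩ := exists_ne_zero_of_sum_ne_zero hne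
    by_cases h1 : T (s t) = S
    · rw [← h1]; exact hT (s t)
    · by_cases h2 : T' (s t) = S
      · rw [← h2]; exact hT' (s t)
      · simp [h1, h2] at ht
  · intro v
    rw [hgen]
    have h1 : ∀ t ∈ Ico m n, ((if T (s t) ∈ univ.filter (fun S : Finset V => v ∈ S) then (1 : ℝ) else 0) +
        (if T' (s t) ∈ univ.filter (fun S : Finset V => v ∈ S) then 1 else 0)) =
        1 + ((if v ∈ (s t).1 then 1 else 0) - (if v ∈ (s (t + 1)).1 then 1 else 0)) := by
      intro t _
      have := hrel (s t) v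
      rw [hs t]
      simp only [mem_filter, mem_univ, true_and]
      rw [this]
      ring
    rw [sum_congr rfl h1, sum_add_distrib, sum_const, Nat.card_Ico]
    have h2 : ∑ t ∈ Ico m n, ((if v ∈ (s t).1 then (1 : ℝ) else 0) -
        (if v ∈ (s (t + 1)).1 then 1 else 0)) = 0 := by
      have h : ∀ k, ∑ t ∈ Ico m (m + k), ((if v ∈ (s t).1 then (1 : ℝ) else 0) -
          (if v ∈ (s (t + 1)).1 then 1 else 0)) =
          (if v ∈ (s m).1 then (1 : ℝ) else 0) - (if v ∈ (s (m + k)).1 then 1 else 0) := by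
        intro k
        induction k with
        | zero => simp
        | succ k ih =>
          rw [← add_assoc, sum_Ico_succ_top (by omega), ih]
          ring
      have h' := h (n - m)
      rw [show m + (n - m) = n by omega, hsmn] at h'
      rw [h', sub_self]
    rw [h2]
    have h4 : ((n - m : ℕ) : ℝ) = (n : ℝ) - m := by
      push_cast [Nat.cast_sub hmn.le]
      ring
    rw [nsmul_eq_mul, h4]
    field_simp
    simp
  · rw [hgen]
    simp only [mem_univ, if_true, sum_const, Nat.card_Ico, nsmul_eq_mul]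
    have h4 : ((n - m : ℕ) : ℝ) = (n : ℝ) - m := by
      push_cast [Nat.cast_sub hmn.le]
      ring
    rw [h4]
    field_simp
    norm_num

end Pool.Agent.Q253.CubicTD
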