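import Mathlib

set_option autoImplicit false

namespace Pool.Agent.Q253.Osi
open Finset

/-- sign -/
def sg (t : Bool) : ℝ := if t then 1 else -1

lemma sg_not (t : Bool) : sg (!t) = - sg t := by cases t <;> simp [sg]

lemma sg_sq (t : Bool) : sg t * sg t = 1 := by cases t <;> simp [sg]

variable {n z b : ℕ}

/-- flip one sign -/
def flip (i : Fin n) (j : Fin z) (t : Fin n → Fin z → Bool) : Fin n → Fin z → Bool :=
  fun i' j' => if i' = i ∧ j' = j then !(t i' j') else t i' j'

lemma flip_flip (i : Fin n) (j : Fin z) (t : Fin n → Fin z → Bool) : flip i j (flip i j t) = t := by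
  funext i' j'
  unfold flip
  split_ifs <;> simp

def flipE (i : Fin n) (j : Fin z) : (Fin n → Fin z → Bool) ≃ (Fin n → Fin z → Bool) :=
  ⟨flip i j, flip i j, flip_flip i j, flip_flip i j⟩

lemma sum_zero_of_flip (i : Fin n) (j : Fin z) (f : (Fin n → Fin z → Bool) → ℝ)
    (h : ∀ t, f (flip i j t) = - f t) : ∑ t, f t = 0 := by
  have h1 : ∑ t, f t = ∑ t, f (flip i j t) := (Equiv.sum_comp (flipE i j) f).symm
  have h2 : ∑ t, f (flip i j t) = - ∑ t, f t := by
    rw [← Finset.sum_neg_distrib]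
    exact Finset.sum_congr rfl fun t _ => h t
  linarith

/-- the signs `g` -/
def g (i0 : Fin n) (j : Fin z) (p : Fin z × Fin n) (t : Fin n → Fin z → Bool) : ℝ :=
  sg (t i0 p.1) * sg (t p.2 p.1) * sg (t p.2 j)

lemma g_sq (i0 : Fin n) (j : Fin z) (p : Fin z × Fin n) (t : Fin n → Fin z → Bool) :
    g i0 j p t * g i0 j p t = 1 := by
  unfold g
  have h1 := sg_sq (t i0 p.1)
  have h2 := sg_sq (t p.2 p.1)
  have h3 := sg_sq (t p.2 j)
  calc _ = (sg (t i0 p.1) * sg (t i0 p.1)) * (sg (t p.2 p.1) * sg (t p.2 p.1)) *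
        (sg (t p.2 j) * sg (t p.2 j)) := by ring
    _ = 1 := by rw [h1, h2, h3]; norm_num

lemma sg_flip_ne {i i' : Fin n} {j j' : Fin z} (t : Fin n → Fin z → Bool) (h : ¬ (i' = i ∧ j' = j)) :
    sg (flip i j t i' j') = sg (t i' j') := by
  unfold flip
  rw [if_neg h]

lemma sg_flip_eq (i : Fin n) (j : Fin z) (t : Fin n → Fin z → Bool) :
    sg (flip i j t i j) = - sg (t i j) := by
  unfold flip
  rw [if_pos ⟨rfl, rfl⟩, sg_not]

lemma g_orth (i0 : Fin n) (j : Fin z) (p q : Fin z × Fin n) (hp : p.1 ≠ j) (hq : q.1 ≠ j)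
    (hp0 : p.2 ≠ i0) (hq0 : q.2 ≠ i0) (hpq : p ≠ q) :
    ∑ t : Fin n → Fin z → Bool, g i0 j p t * g i0 j q t = 0 := by
  obtain ⟨j1, i1⟩ := p
  obtain ⟨j2, i2⟩ := q
  simp only at hp hq hp0 hq0
  by_cases hi : i1 = i2
  · subst hi
    have hj : j1 ≠ j2 := fun h => hpq (by rw [h])
    apply sum_zero_of_flip i1 j1
    intro t
    unfold g
    simp only
    rw [sg_flip_ne t (fun h => hp0 h.1.symm), sg_flip_eq, sg_flip_ne t (fun h => hp h.2.symm),
      sg_flip_ne t (fun h => hp0 h.1.symm), sg_flip_ne t (fun h => hj h.2.symm)]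
    ring
  · apply sum_zero_of_flip i1 j
    intro t
    unfold g
    simp only
    rw [sg_flip_ne t (fun h => hp0 h.1.symm), sg_flip_ne t (fun h => hp h.2), sg_flip_eq,
      sg_flip_ne t (fun h => hp0 h.1.symm), sg_flip_ne t (fun h => hi h.1.symm),
      sg_flip_ne t (fun h => hi h.1.symm)]
    ring

lemma sum_sq_g (i0 : Fin n) (j : Fin z) (P : Finset (Fin z × Fin n)) (hP : ∀ p ∈ P, p.1 ≠ j ∧ p.2 ≠ i0) :
    ∑ t : Fin n → Fin z → Bool, (∑ p ∈ P, g i0 j p t) ^ 2 =
      (Fintype.card (Fin n → Fin z → Bool) : ℝ) * P.card := by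
  have h1 : ∀ t : Fin n → Fin z → Bool, (∑ p ∈ P, g i0 j p t) ^ 2 =
      ∑ p ∈ P, ∑ q ∈ P, g i0 j p t * g i0 j q t := by
    intro t
    rw [sq, Finset.sum_mul_sum]
  simp_rw [h1]
  rw [Finset.sum_comm]
  have h2 : ∀ p ∈ P, ∑ t : Fin n → Fin z → Bool, ∑ q ∈ P, g i0 j p t * g i0 j q t =
      (Fintype.card (Fin n → Fin z → Bool) : ℝ) := by
    intro p hp
    rw [Finset.sum_comm, Finset.sum_eq_single_of_mem p hp]
    · simp_rw [g_sq]
      simp
    · intro q hq hqp
      exact g_orth i0 j p q (hP p hp).1 (hP q hq).1 (hP p hp).2 (hP q hq).2 (Ne.symm hqp)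
  rw [Finset.sum_congr rfl h2, Finset.sum_const, nsmul_eq_mul]
  ring

/-- the helpers of `i0` in block `j` -/
def Hs (R : Finset (Fin n)) (s : Fin n → Fin z → Fin b) (i0 : Fin n) (j : Fin z) : Finset (Fin n) :=
  R.filter (fun i => i ≠ i0 ∧ s i j = s i0 j)

/-- the test vector -/
noncomputable def xv (R : Finset (Fin n)) (s : Fin n → Fin z → Fin b) (i0 : Fin n) (D : ℕ)
    (t : Fin n → Fin z → Bool) (i : Fin n) : ℝ :=
  (if i = i0 then 1 else 0) - ∑ j, if i ∈ Hs R s i0 j then sg (t i0 j) * sg (t i j) / D else 0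

/-- the column sum, without the factor `1 / √ζ` -/
noncomputable def Y (s : Fin n → Fin z → Fin b) (t : Fin n → Fin z → Bool) (x : Fin n → ℝ)
    (j : Fin z) (c : Fin b) : ℝ :=
  ∑ i, if s i j = c then sg (t i j) * x i else 0

/-- index set -/
def Pset (R : Finset (Fin n)) (s : Fin n → Fin z → Fin b) (i0 : Fin n) (j : Fin z) (c : Fin b) :
    Finset (Fin z × Fin n) :=
  univ.filter (fun p => p.1 ≠ j ∧ p.2 ∈ Hs R s i0 p.1 ∧ s p.2 j = c)

lemma xv_self (R : Finset (Fin n)) (s : Fin n → Fin z → Fin b) (i0 : Fin n) (D : ℕ)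
    (t : Fin n → Fin z → Bool) : xv R s i0 D t i0 = 1 := by
  unfold xv
  rw [if_pos rfl]
  have : ∀ j ∈ (univ : Finset (Fin z)), (if i0 ∈ Hs R s i0 j then sg (t i0 j) * sg (t i0 j) / (D : ℝ) else 0) = 0 := by
    intro j _
    rw [if_neg]
    unfold Hs
    simp
  rw [Finset.sum_congr rfl this]
  simp

lemma Y_eq (R : Finset (Fin n)) (s : Fin n → Fin z → Fin b) (i0 : Fin n) (D : ℕ) (hD : 0 < D)
    (t : Fin n → Fin z → Bool) (hH : ∀ j, (Hs R s i0 j).card = D) (j : Fin z) (c : Fin b) :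
    Y s t (xv R s i0 D t) j c = - (1 / (D : ℝ)) * ∑ p ∈ Pset R s i0 j c, g i0 j p t := by
  have hD0 : (D : ℝ) ≠ 0 := by exact_mod_cast hD.ne'
  unfold Y
  -- expand
  have e1 : ∀ i ∈ (univ : Finset (Fin n)), (if s i j = c then sg (t i j) * xv R s i0 D t i else 0) =
      (if s i j = c then (if i = i0 then sg (t i j) else 0) else 0) -
      ∑ j', (if s i j = c then (if i ∈ Hs R s i0 j' then sg (t i0 j') * sg (t i j') * sg (t i j) / D else 0) else 0) := by
    intro i _
    by_cases h : s i j = c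
    · simp only [h, if_true]
      unfold xv
      rw [mul_sub, Finset.mul_sum]
      congr 1
      · split_ifs <;> simp
      · apply Finset.sum_congr rfl
        intro j' _
        split_ifs
        · ring
        · simp
    · simp [h]
  rw [Finset.sum_congr rfl e1, Finset.sum_sub_distrib, Finset.sum_comm]
  rw [← Finset.add_sum_erase univ _ (Finset.mem_univ j)]
  -- the term j' = j
  have e2 : ∑ i, (if s i j = c then (if i ∈ Hs R s i0 j then sg (t i0 j) * sg (t i j) * sg (t i j) / (D : ℝ) else 0) else 0)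
      = ∑ i, (if s i j = c then (if i = i0 then sg (t i j) else 0) else 0) := by
    have l1 : ∀ i ∈ (univ : Finset (Fin n)), (if s i j = c then (if i ∈ Hs R s i0 j then sg (t i0 j) * sg (t i j) * sg (t i j) / (D : ℝ) else 0) else 0)
        = if s i0 j = c then (if i ∈ Hs R s i0 j then sg (t i0 j) / (D : ℝ) else 0) else 0 := by
      intro i _
      by_cases hi : i ∈ Hs R s i0 j
      · have h1 : s i j = s i0 j := by
          unfold Hs at hi
          simp only [Finset.mem_filter] at hi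
          exact hi.2.2
        rw [h1]
        simp only [hi, if_true]
        rw [mul_assoc, sg_sq, mul_one]
      · simp [hi]
    rw [Finset.sum_congr rfl l1]
    by_cases h0 : s i0 j = c
    · simp only [h0, if_true]
      rw [← Finset.sum_filter, Finset.filter_mem_eq_inter, Finset.univ_inter, Finset.sum_const, hH j, nsmul_eq_mul]
      rw [Finset.sum_eq_single i0]
      · rw [if_pos h0, if_pos rfl]
        field_simp
      · intro i _ hi
        simp [hi]
      · intro h
        exact absurd (Finset.mem_univ _) h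
    · simp only [h0, if_false, Finset.sum_const_zero]
      symm
      apply Finset.sum_eq_zero
      intro i _
      by_cases hi : i = i0
      · subst hi
        simp [h0]
      · simp [hi]
  rw [e2]
  have e3 : ∑ j' ∈ univ.erase j, ∑ i, (if s i j = c then (if i ∈ Hs R s i0 j' then sg (t i0 j') * sg (t i j') * sg (t i j) / (D : ℝ) else 0) else 0)
      = (1 / (D : ℝ)) * ∑ p ∈ Pset R s i0 j c, g i0 j p t := by
    unfold Pset
    rw [Finset.sum_filter, ← Finset.univ_product_univ, Finset.sum_product, Finset.mul_sum,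
      ← Finset.add_sum_erase univ _ (Finset.mem_univ j)]
    have l2 : ∑ y, (if (j, y).1 ≠ j ∧ (j, y).2 ∈ Hs R s i0 (j, y).1 ∧ s (j, y).2 j = c then g i0 j (j, y) t else 0) = 0 := by
      apply Finset.sum_eq_zero
      intro y _
      simp
    rw [l2, mul_zero, zero_add]
    apply Finset.sum_congr rfl
    intro j' hj'
    have hj'' : j' ≠ j := Finset.ne_of_mem_erase hj'
    rw [Finset.mul_sum]
    apply Finset.sum_congr rfl
    intro i _
    simp only [g]
    by_cases h1 : s i j = c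
    · by_cases h2 : i ∈ Hs R s i0 j'
      · simp only [h1, h2, if_true, ne_eq, hj'', not_false_eq_true, and_self]
        ring
      · simp [h2]
    · simp [h1]
  rw [e3]
  ring

lemma sum_Pset_card (R : Finset (Fin n)) (s : Fin n → Fin z → Fin b) (i0 : Fin n) (D : ℕ)
    (hH : ∀ j, (Hs R s i0 j).card = D) (j : Fin z) :
    ∑ c, (Pset R s i0 j c).card = (z - 1) * D := by
  have h1 : ∑ c, (Pset R s i0 j c).card = (univ.filter (fun p : Fin z × Fin n => p.1 ≠ j ∧ p.2 ∈ Hs R s i0 p.1)).card := by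
    rw [Finset.card_eq_sum_card_fiberwise (f := fun p : Fin z × Fin n => s p.2 j) (t := univ) (fun _ _ => Finset.mem_coe.2 (Finset.mem_univ _))]
    apply Finset.sum_congr rfl
    intro c _
    congr 1
    unfold Pset
    ext p
    simp only [Finset.mem_filter, Finset.mem_univ, true_and]
    tauto
  rw [h1]
  rw [Finset.card_eq_sum_card_fiberwise (f := fun p : Fin z × Fin n => p.1) (t := univ.erase j)
    (fun p hp => by
      have hp' := Finset.mem_coe.1 hp
      simp only [Finset.mem_filter, Finset.mem_univ, true_and] at hp'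
      exact Finset.mem_coe.2 (Finset.mem_erase.2 ⟨hp'.1, Finset.mem_univ _⟩))]
  have h2 : ∀ j' ∈ univ.erase j, ((univ.filter (fun p : Fin z × Fin n => p.1 ≠ j ∧ p.2 ∈ Hs R s i0 p.1)).filter
      (fun p : Fin z × Fin n => p.1 = j')).card = D := by
    intro j' hj'
    rw [← hH j', ← Finset.card_map (Function.Embedding.sectR j' (Fin n))]
    congr 1
    ext ⟨x, y⟩
    simp only [Finset.mem_filter, Finset.mem_univ, true_and, Finset.mem_map, Function.Embedding.sectR_apply, Prod.mk.injEq]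
    constructor
    · rintro ⟨⟨h1, h2⟩, h3⟩
      exact ⟨y, h3 ▸ h2, h3.symm, rfl⟩
    · rintro ⟨y', h2, h3, h4⟩
      subst h3 h4
      exact ⟨⟨Finset.ne_of_mem_erase hj', h2⟩, rfl⟩
  rw [Finset.sum_congr rfl h2, Finset.sum_const, smul_eq_mul, Finset.card_erase_of_mem (Finset.mem_univ j),
    Finset.card_univ, Fintype.card_fin]

/-- the second moment over the signs -/
lemma second_moment (R : Finset (Fin n)) (s : Fin n → Fin z → Fin b) (i0 : Fin n) (D : ℕ) (hD : 0 < D)
    (hH : ∀ j, (Hs R s i0 j).card = D) :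
    ∑ t : Fin n → Fin z → Bool, ∑ j, ∑ c, Y s t (xv R s i0 D t) j c ^ 2 =
      (Fintype.card (Fin n → Fin z → Bool) : ℝ) * (z * ((z - 1 : ℕ) : ℝ) / D) := by
  have hD0 : (D : ℝ) ≠ 0 := by exact_mod_cast hD.ne'
  simp_rw [Y_eq R s i0 D hD _ hH, mul_pow]
  rw [Finset.sum_comm]
  have h1 : ∀ j ∈ (univ : Finset (Fin z)), ∑ t : Fin n → Fin z → Bool, ∑ c, (-(1 / (D : ℝ))) ^ 2 * (∑ p ∈ Pset R s i0 j c, g i0 j p t) ^ 2 =
      (Fintype.card (Fin n → Fin z → Bool) : ℝ) * (((z - 1 : ℕ) : ℝ) / D) := by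
    intro j _
    rw [Finset.sum_comm]
    have h2 : ∀ c ∈ (univ : Finset (Fin b)), ∑ t : Fin n → Fin z → Bool, (-(1 / (D : ℝ))) ^ 2 * (∑ p ∈ Pset R s i0 j c, g i0 j p t) ^ 2
        = (1 / (D : ℝ)) ^ 2 * ((Fintype.card (Fin n → Fin z → Bool) : ℝ) * (Pset R s i0 j c).card) := by
      intro c _
      rw [← Finset.mul_sum, sum_sq_g]
      · ring
      · intro p hp
        unfold Pset at hp
        simp only [Finset.mem_filter, Finset.mem_univ, true_and] at hp
        refine ⟨hp.1, ?_⟩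
        have := hp.2.1
        unfold Hs at this
        simp only [Finset.mem_filter] at this
        exact this.2.1
    rw [Finset.sum_congr rfl h2, ← Finset.mul_sum, ← Finset.mul_sum]
    have h3 : ∑ c, ((Pset R s i0 j c).card : ℝ) = ((z - 1 : ℕ) : ℝ) * D := by
      exact_mod_cast sum_Pset_card R s i0 D hH j
    rw [h3]
    field_simp
  rw [Finset.sum_congr rfl h1, Finset.sum_const, Finset.card_univ, Fintype.card_fin, nsmul_eq_mul]
  ring

end Pool.Agent.Q253.Osi
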