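import Pool.Agent.Q253.OsiA

set_option autoImplicit false

namespace Pool.Agent.Q253.Osi
open Finset

variable {n z b : ℕ}

/-- helpers in one block -/
def Ht (R : Finset (Fin n)) (t : Fin n → Fin b) (i0 : Fin n) : Finset (Fin n) :=
  R.filter (fun i => i ≠ i0 ∧ t i = t i0)

lemma prod_three (p q : Fin n → Prop) [DecidablePred p] [DecidablePred q] (x y : ℕ) :
    ∏ i : Fin n, (if p i then 1 else if q i then x else y) =
      x ^ (univ.filter (fun i => ¬ p i ∧ q i)).card * y ^ (univ.filter (fun i => ¬ p i ∧ ¬ q i)).card := by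
  rw [Finset.prod_ite, Finset.prod_const_one, one_mul, Finset.prod_ite, Finset.prod_const, Finset.prod_const,
    Finset.filter_filter, Finset.filter_filter]

lemma fiberA (R : Finset (Fin n)) (i0 : Fin n) (hi0 : i0 ∈ R) (D : ℕ) (c : Fin b) (S : Finset (Fin n))
    (hS : S ∈ (R.erase i0).powersetCard D) :
    (univ.filter (fun t : Fin n → Fin b => t i0 = c ∧ Ht R t i0 = S)).card =
      (b - 1) ^ (R.card - 1 - D) * b ^ (n - R.card) := by
  rw [Finset.mem_powersetCard] at hS
  have h1 : univ.filter (fun t : Fin n → Fin b => t i0 = c ∧ Ht R t i0 = S) =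
      Fintype.piFinset (fun i => if i = i0 ∨ i ∈ S then {c} else if i ∈ R then univ.erase c else univ) := by
    ext t
    simp only [Finset.mem_filter, Finset.mem_univ, true_and, Fintype.mem_piFinset]
    constructor
    · rintro ⟨h1, h2⟩ i
      split_ifs with h3 h4
      · rw [Finset.mem_singleton]
        rcases h3 with h3 | h3
        · rw [h3, h1]
        · rw [← h2] at h3
          unfold Ht at h3
          rw [Finset.mem_filter] at h3
          rw [h3.2.2, h1]
      · rw [Finset.mem_erase]
        refine ⟨fun h5 => h3 ?_, Finset.mem_univ _⟩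
        by_cases h6 : i = i0
        · exact Or.inl h6
        · right
          rw [← h2]
          unfold Ht
          rw [Finset.mem_filter]
          exact ⟨h4, h6, h5.trans h1.symm⟩
      · exact Finset.mem_univ _
    · intro h
      have h0 : t i0 = c := by
        have := h i0
        rw [if_pos (Or.inl rfl), Finset.mem_singleton] at this
        exact this
      refine ⟨h0, ?_⟩
      ext i
      unfold Ht
      rw [Finset.mem_filter]
      constructor
      · rintro ⟨h1, h2, h3⟩
        by_contra h4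
        have := h i
        rw [if_neg (by tauto), if_pos h1, Finset.mem_erase] at this
        exact this.1 (h3.trans h0)
      · intro h1
        have h2 := hS.1 h1
        rw [Finset.mem_erase] at h2
        have := h i
        rw [if_pos (Or.inr h1), Finset.mem_singleton] at this
        exact ⟨h2.2, h2.1, this.trans h0.symm⟩
  rw [h1, Fintype.card_piFinset]
  have h2 : ∀ i ∈ (univ : Finset (Fin n)), (if i = i0 ∨ i ∈ S then ({c} : Finset (Fin b)) else if i ∈ R then univ.erase c else univ).card
      = if i = i0 ∨ i ∈ S then 1 else if i ∈ R then (b - 1) else b := by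
    intro i _
    split_ifs
    · simp
    · rw [Finset.card_erase_of_mem (Finset.mem_univ _)]
      simp
    · simp
  rw [Finset.prod_congr rfl h2, prod_three]
  congr 2
  · have : univ.filter (fun i => ¬ (i = i0 ∨ i ∈ S) ∧ i ∈ R) = (R.erase i0) \ S := by
      ext i
      simp only [Finset.mem_filter, Finset.mem_univ, true_and, Finset.mem_sdiff, Finset.mem_erase]
      tauto
    rw [this, Finset.card_sdiff_of_subset hS.1, Finset.card_erase_of_mem hi0, hS.2]
  · have : univ.filter (fun i => ¬ (i = i0 ∨ i ∈ S) ∧ i ∉ R) = univ \ R := by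
      ext i
      simp only [Finset.mem_filter, Finset.mem_univ, true_and, Finset.mem_sdiff]
      constructor
      · tauto
      · intro h
        refine ⟨?_, h⟩
        rintro (h1 | h1)
        · exact h (h1 ▸ hi0)
        · exact h (Finset.mem_of_mem_erase (hS.1 h1))
    rw [this, Finset.card_sdiff_of_subset (Finset.subset_univ _)]
    simp

/-- the exact count for one row -/
lemma countA (R : Finset (Fin n)) (i0 : Fin n) (hi0 : i0 ∈ R) (D : ℕ) :
    (univ.filter (fun t : Fin n → Fin b => (Ht R t i0).card = D)).card =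
      b * (R.card - 1).choose D * ((b - 1) ^ (R.card - 1 - D) * b ^ (n - R.card)) := by
  rw [Finset.card_eq_sum_card_fiberwise (f := fun t : Fin n → Fin b => (t i0, Ht R t i0))
    (t := univ ×ˢ (R.erase i0).powersetCard D) (fun t ht => by
      have ht' := Finset.mem_coe.1 ht
      simp only [Finset.mem_filter, Finset.mem_univ, true_and] at ht'
      refine Finset.mem_coe.2 (Finset.mem_product.2 ⟨Finset.mem_univ _, Finset.mem_powersetCard.2 ⟨?_, ht'⟩⟩)
      intro i hi
      unfold Ht at hi
      rw [Finset.mem_filter] at hi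
      exact Finset.mem_erase.2 ⟨hi.2.1, hi.1⟩)]
  have h : ∀ cS ∈ (univ : Finset (Fin b)) ×ˢ (R.erase i0).powersetCard D,
      ((univ.filter (fun t : Fin n → Fin b => (Ht R t i0).card = D)).filter
        (fun t : Fin n → Fin b => (t i0, Ht R t i0) = cS)).card = (b - 1) ^ (R.card - 1 - D) * b ^ (n - R.card) := by
    rintro ⟨c, S⟩ hcS
    rw [Finset.mem_product] at hcS
    rw [← fiberA R i0 hi0 D c S hcS.2]
    congr 1
    ext t
    simp only [Finset.mem_filter, Finset.mem_univ, true_and, Prod.mk.injEq]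
    constructor
    · rintro ⟨_, h2⟩
      exact h2
    · rintro ⟨h1, h2⟩
      refine ⟨?_, h1, h2⟩
      rw [h2]
      exact (Finset.mem_powersetCard.1 hcS.2).2
  rw [Finset.sum_congr rfl h, Finset.sum_const, Finset.card_product, Finset.card_powersetCard,
    Finset.card_erase_of_mem hi0, Finset.card_univ, Fintype.card_fin, smul_eq_mul]

lemma fiberB (R : Finset (Fin n)) (i0 i1 : Fin n) (hi0 : i0 ∈ R) (hi1 : i1 ∈ R) (h01 : i0 ≠ i1) (D : ℕ)
    (c0 c1 : Fin b) (hc : c0 ≠ c1) (S0 S1 : Finset (Fin n))
    (hS0 : S0 ∈ ((R.erase i0).erase i1).powersetCard D) (hS1 : S1 ∈ ((R.erase i0).erase i1).powersetCard D) :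
    (univ.filter (fun t : Fin n → Fin b => (t i0 = c0 ∧ t i1 = c1) ∧ Ht R t i0 = S0 ∧ Ht R t i1 = S1)).card ≤
      (b - 2) ^ (R.card - 2 - 2 * D) * b ^ (n - R.card) := by
  rw [Finset.mem_powersetCard] at hS0 hS1
  by_cases hdis : Disjoint S0 S1
  swap
  · rw [Finset.not_disjoint_iff] at hdis
    obtain ⟨i, hi0', hi1'⟩ := hdis
    have : univ.filter (fun t : Fin n → Fin b => (t i0 = c0 ∧ t i1 = c1) ∧ Ht R t i0 = S0 ∧ Ht R t i1 = S1) = ∅ := by
      apply Finset.filter_eq_empty_iff.2
      rintro t _ ⟨⟨h1, h2⟩, h3, h4⟩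
      rw [← h3] at hi0'
      rw [← h4] at hi1'
      unfold Ht at hi0' hi1'
      rw [Finset.mem_filter] at hi0' hi1'
      apply hc
      rw [← h1, ← h2, ← hi0'.2.2, ← hi1'.2.2]
    rw [this]
    simp
  have h1 : univ.filter (fun t : Fin n → Fin b => (t i0 = c0 ∧ t i1 = c1) ∧ Ht R t i0 = S0 ∧ Ht R t i1 = S1) ⊆
      Fintype.piFinset (fun i => if i = i0 ∨ i ∈ S0 then {c0} else if i = i1 ∨ i ∈ S1 then {c1} else
        if i ∈ R then (univ.erase c0).erase c1 else univ) := by
    intro t
    simp only [Finset.mem_filter, Finset.mem_univ, true_and, Fintype.mem_piFinset]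
    rintro ⟨⟨h1, h2⟩, h3, h4⟩ i
    split_ifs with h5 h6 h7
    · rw [Finset.mem_singleton]
      rcases h5 with h5 | h5
      · rw [h5, h1]
      · rw [← h3] at h5
        unfold Ht at h5
        rw [Finset.mem_filter] at h5
        rw [h5.2.2, h1]
    · rw [Finset.mem_singleton]
      rcases h6 with h6 | h6
      · rw [h6, h2]
      · rw [← h4] at h6
        unfold Ht at h6
        rw [Finset.mem_filter] at h6
        rw [h6.2.2, h2]
    · rw [Finset.mem_erase, Finset.mem_erase]
      refine ⟨fun h8 => h6 ?_, fun h8 => h5 ?_, Finset.mem_univ _⟩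
      · by_cases h9 : i = i1
        · exact Or.inl h9
        · right
          rw [← h4]
          unfold Ht
          rw [Finset.mem_filter]
          exact ⟨h7, h9, h8.trans h2.symm⟩
      · by_cases h9 : i = i0
        · exact Or.inl h9
        · right
          rw [← h3]
          unfold Ht
          rw [Finset.mem_filter]
          exact ⟨h7, h9, h8.trans h1.symm⟩
    · exact Finset.mem_univ _
  refine (Finset.card_le_card h1).trans (le_of_eq ?_)
  rw [Fintype.card_piFinset]
  have h2 : ∀ i ∈ (univ : Finset (Fin n)), (if i = i0 ∨ i ∈ S0 then ({c0} : Finset (Fin b)) else if i = i1 ∨ i ∈ S1 then {c1} else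
        if i ∈ R then (univ.erase c0).erase c1 else univ).card
      = if ((i = i0 ∨ i ∈ S0) ∨ (i = i1 ∨ i ∈ S1)) then 1 else if i ∈ R then (b - 2) else b := by
    intro i _
    by_cases h5 : i = i0 ∨ i ∈ S0
    · rw [if_pos h5, if_pos (Or.inl h5)]
      simp
    · rw [if_neg h5]
      by_cases h6 : i = i1 ∨ i ∈ S1
      · rw [if_pos h6, if_pos (Or.inr h6)]
        simp
      · rw [if_neg h6, if_neg (show ¬ ((i = i0 ∨ i ∈ S0) ∨ (i = i1 ∨ i ∈ S1)) by tauto)]
        split_ifs
        · rw [Finset.card_erase_of_mem (Finset.mem_erase.2 ⟨hc.symm, Finset.mem_univ _⟩),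
            Finset.card_erase_of_mem (Finset.mem_univ _)]
          simp
          omega
        · simp
  rw [Finset.prod_congr rfl h2, prod_three]
  congr 2
  · have : univ.filter (fun i => ¬ ((i = i0 ∨ i ∈ S0) ∨ (i = i1 ∨ i ∈ S1)) ∧ i ∈ R) = ((R.erase i0).erase i1) \ (S0 ∪ S1) := by
      ext i
      simp only [Finset.mem_filter, Finset.mem_univ, true_and, Finset.mem_sdiff, Finset.mem_erase, Finset.mem_union]
      tauto
    rw [this, Finset.card_sdiff_of_subset (Finset.union_subset hS0.1 hS1.1),
      Finset.card_union_of_disjoint hdis, hS0.2, hS1.2,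
      Finset.card_erase_of_mem (Finset.mem_erase.2 ⟨h01.symm, hi1⟩), Finset.card_erase_of_mem hi0]
    omega
  · have : univ.filter (fun i => ¬ ((i = i0 ∨ i ∈ S0) ∨ (i = i1 ∨ i ∈ S1)) ∧ i ∉ R) = univ \ R := by
      ext i
      simp only [Finset.mem_filter, Finset.mem_univ, true_and, Finset.mem_sdiff]
      constructor
      · tauto
      · intro h
        refine ⟨?_, h⟩
        rintro ((h1 | h1) | (h1 | h1))
        · exact h (h1 ▸ hi0)
        · exact h (Finset.mem_of_mem_erase (Finset.mem_of_mem_erase (hS0.1 h1)))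
        · exact h (h1 ▸ hi1)
        · exact h (Finset.mem_of_mem_erase (Finset.mem_of_mem_erase (hS1.1 h1)))
    rw [this, Finset.card_sdiff_of_subset (Finset.subset_univ _)]
    simp

/-- the upper bound for two rows in different columns -/
lemma countB (R : Finset (Fin n)) (i0 i1 : Fin n) (hi0 : i0 ∈ R) (hi1 : i1 ∈ R) (h01 : i0 ≠ i1) (D : ℕ) :
    (univ.filter (fun t : Fin n → Fin b => t i0 ≠ t i1 ∧ (Ht R t i0).card = D ∧ (Ht R t i1).card = D)).card ≤
      (b * b - b) * ((R.card - 2).choose D * (R.card - 2).choose D) *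
        ((b - 2) ^ (R.card - 2 - 2 * D) * b ^ (n - R.card)) := by
  have hcard : ((R.erase i0).erase i1).card = R.card - 2 := by
    rw [Finset.card_erase_of_mem (Finset.mem_erase.2 ⟨h01.symm, hi1⟩), Finset.card_erase_of_mem hi0]
    omega
  rw [Finset.card_eq_sum_card_fiberwise (f := fun t : Fin n → Fin b => ((t i0, t i1), (Ht R t i0, Ht R t i1)))
    (t := (univ : Finset (Fin b)).offDiag ×ˢ (((R.erase i0).erase i1).powersetCard D ×ˢ ((R.erase i0).erase i1).powersetCard D))
    (fun t ht => by
      have ht' := Finset.mem_coe.1 ht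
      simp only [Finset.mem_filter, Finset.mem_univ, true_and] at ht'
      obtain ⟨h1, h2, h3⟩ := ht'
      refine Finset.mem_coe.2 (Finset.mem_product.2 ⟨Finset.mem_offDiag.2 ⟨Finset.mem_univ _, Finset.mem_univ _, h1⟩,
        Finset.mem_product.2 ⟨Finset.mem_powersetCard.2 ⟨?_, h2⟩, Finset.mem_powersetCard.2 ⟨?_, h3⟩⟩⟩)
      · intro i hi
        unfold Ht at hi
        rw [Finset.mem_filter] at hi
        refine Finset.mem_erase.2 ⟨?_, Finset.mem_erase.2 ⟨hi.2.1, hi.1⟩⟩
        rintro rfl
        exact h1 hi.2.2.symm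
      · intro i hi
        unfold Ht at hi
        rw [Finset.mem_filter] at hi
        refine Finset.mem_erase.2 ⟨hi.2.1, Finset.mem_erase.2 ⟨?_, hi.1⟩⟩
        rintro rfl
        exact h1 hi.2.2)]
  have h : ∀ q ∈ (univ : Finset (Fin b)).offDiag ×ˢ (((R.erase i0).erase i1).powersetCard D ×ˢ ((R.erase i0).erase i1).powersetCard D),
      ((univ.filter (fun t : Fin n → Fin b => t i0 ≠ t i1 ∧ (Ht R t i0).card = D ∧ (Ht R t i1).card = D)).filter
        (fun t : Fin n → Fin b => ((t i0, t i1), (Ht R t i0, Ht R t i1)) = q)).card ≤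
        (b - 2) ^ (R.card - 2 - 2 * D) * b ^ (n - R.card) := by
    rintro ⟨⟨c0, c1⟩, ⟨S0, S1⟩⟩ hq
    rw [Finset.mem_product, Finset.mem_product, Finset.mem_offDiag] at hq
    refine le_trans (Finset.card_le_card ?_) (fiberB R i0 i1 hi0 hi1 h01 D c0 c1 hq.1.2.2 S0 S1 hq.2.1 hq.2.2)
    intro t
    simp only [Finset.mem_filter, Finset.mem_univ, true_and, Prod.mk.injEq]
    rintro ⟨_, h2⟩
    exact h2
  refine (Finset.sum_le_sum h).trans (le_of_eq ?_)
  rw [Finset.sum_const, Finset.card_product, Finset.card_product, Finset.card_powersetCard, hcard,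
    Finset.offDiag_card, Finset.card_univ, Fintype.card_fin, smul_eq_mul]

/-- same column -/
lemma countSame (i0 i1 : Fin n) (h01 : i0 ≠ i1) :
    (univ.filter (fun t : Fin n → Fin b => t i0 = t i1)).card ≤ b ^ (n - 1) := by
  have h1 : (univ.filter (fun t : Fin n → Fin b => t i0 = t i1)).card ≤
      (univ : Finset ({i : Fin n // i ≠ i0} → Fin b)).card := by
    apply Finset.card_le_card_of_injOn (fun t => fun i => t i.1) (fun _ _ => Finset.mem_coe.2 (Finset.mem_univ _))
    intro t ht t' ht' h
    have ht1 := (Finset.mem_filter.1 (Finset.mem_coe.1 ht)).2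
    have ht2 := (Finset.mem_filter.1 (Finset.mem_coe.1 ht')).2
    funext i
    by_cases hi : i = i0
    · rw [hi, ht1, ht2]
      exact congrFun h ⟨i1, h01.symm⟩
    · exact congrFun h ⟨i, hi⟩
  refine h1.trans (le_of_eq ?_)
  rw [Finset.card_univ, Fintype.card_fun, Fintype.card_fin, Fintype.card_subtype_compl]
  simp

end Pool.Agent.Q253.Osi
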