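import Pool.Agent.Q253.OsiB

set_option autoImplicit false

namespace Pool.Agent.Q253.Osi
open Finset Filter Topology

variable {n z b : ℕ}

lemma countProd (P : (Fin n → Fin b) → Prop) [DecidablePred P] :
    (univ.filter (fun s : Fin n → Fin z → Fin b => ∀ j, P (fun i => s i j))).card =
      (univ.filter P).card ^ z := by
  have h1 : (univ.filter (fun s : Fin n → Fin z → Fin b => ∀ j, P (fun i => s i j))).card =
      (Fintype.piFinset (fun _ : Fin z => univ.filter P)).card := by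
    apply Finset.card_bij (fun s _ => fun j i => s i j)
    · intro s hs
      rw [Finset.mem_filter] at hs
      rw [Fintype.mem_piFinset]
      intro j
      exact Finset.mem_filter.2 ⟨Finset.mem_univ _, hs.2 j⟩
    · intro s _ s' _ h
      funext i j
      exact congrFun (congrFun h j) i
    · intro u hu
      rw [Fintype.mem_piFinset] at hu
      refine ⟨fun i j => u j i, Finset.mem_filter.2 ⟨Finset.mem_univ _, fun j => ?_⟩, rfl⟩
      exact (Finset.mem_filter.1 (hu j)).2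
  rw [h1, Fintype.card_piFinset]
  simp

/-- the number of good rows -/
def X (R : Finset (Fin n)) (D : ℕ) (s : Fin n → Fin z → Fin b) : ℕ :=
  (R.filter (fun i0 => ∀ j, (Hs R s i0 j).card = D)).card

lemma Hs_eq (R : Finset (Fin n)) (s : Fin n → Fin z → Fin b) (i0 : Fin n) (j : Fin z) :
    Hs R s i0 j = Ht R (fun i => s i j) i0 := rfl

lemma sum_X (R : Finset (Fin n)) (D : ℕ) :
    ∑ s : Fin n → Fin z → Fin b, X R D s =
      R.card * (b * (R.card - 1).choose D * ((b - 1) ^ (R.card - 1 - D) * b ^ (n - R.card))) ^ z := by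
  unfold X
  simp_rw [Finset.card_filter]
  rw [Finset.sum_comm]
  have h : ∀ i0 ∈ R, ∑ s : Fin n → Fin z → Fin b, (if ∀ j, (Hs R s i0 j).card = D then 1 else 0) =
      (b * (R.card - 1).choose D * ((b - 1) ^ (R.card - 1 - D) * b ^ (n - R.card))) ^ z := by
    intro i0 hi0
    rw [← Finset.card_filter, ← countA R i0 hi0 D, ← countProd]
    rfl
  rw [Finset.sum_congr rfl h, Finset.sum_const, smul_eq_mul]

lemma sum_X_sq (R : Finset (Fin n)) (D : ℕ) :
    ∑ s : Fin n → Fin z → Fin b, X R D s ^ 2 ≤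
      R.card * (b * (R.card - 1).choose D * ((b - 1) ^ (R.card - 1 - D) * b ^ (n - R.card))) ^ z +
      R.card ^ 2 * (b ^ (n - 1) + (b * b - b) * ((R.card - 2).choose D * (R.card - 2).choose D) *
        ((b - 2) ^ (R.card - 2 - 2 * D) * b ^ (n - R.card))) ^ z := by
  unfold X
  simp_rw [Finset.card_filter]
  have e1 : ∀ s : Fin n → Fin z → Fin b, (∑ i ∈ R, (if ∀ j, (Hs R s i j).card = D then 1 else 0)) ^ 2 =
      ∑ i ∈ R, ∑ i' ∈ R, (if (∀ j, (Hs R s i j).card = D) ∧ (∀ j, (Hs R s i' j).card = D) then 1 else 0) := by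
    intro s
    rw [sq, Finset.sum_mul_sum]
    apply Finset.sum_congr rfl
    intro i _
    apply Finset.sum_congr rfl
    intro i' _
    by_cases h1 : (∀ j, (Hs R s i j).card = D) <;> by_cases h2 : (∀ j, (Hs R s i' j).card = D) <;> simp [h1, h2]
  simp_rw [e1]
  rw [Finset.sum_comm]
  have h : ∀ i0 ∈ R, ∑ s : Fin n → Fin z → Fin b, ∑ i' ∈ R, (if (∀ j, (Hs R s i0 j).card = D) ∧ (∀ j, (Hs R s i' j).card = D) then 1 else 0) ≤
      (b * (R.card - 1).choose D * ((b - 1) ^ (R.card - 1 - D) * b ^ (n - R.card))) ^ z +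
      R.card * (b ^ (n - 1) + (b * b - b) * ((R.card - 2).choose D * (R.card - 2).choose D) *
        ((b - 2) ^ (R.card - 2 - 2 * D) * b ^ (n - R.card))) ^ z := by
    intro i0 hi0
    rw [Finset.sum_comm, ← Finset.add_sum_erase R _ hi0]
    apply Nat.add_le_add
    · rw [← Finset.card_filter, ← countA R i0 hi0 D, ← countProd]
      apply Finset.card_le_card
      intro s hs
      rw [Finset.mem_filter] at hs ⊢
      exact ⟨hs.1, hs.2.1⟩
    · have h2 : ∀ i1 ∈ R.erase i0, ∑ s : Fin n → Fin z → Fin b, (if (∀ j, (Hs R s i0 j).card = D) ∧ (∀ j, (Hs R s i1 j).card = D) then 1 else 0) ≤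
        (b ^ (n - 1) + (b * b - b) * ((R.card - 2).choose D * (R.card - 2).choose D) *
        ((b - 2) ^ (R.card - 2 - 2 * D) * b ^ (n - R.card))) ^ z := by
        intro i1 hi1
        rw [Finset.mem_erase] at hi1
        have h3 : (univ.filter (fun t : Fin n → Fin b => (Ht R t i0).card = D ∧ (Ht R t i1).card = D)).card ≤
          b ^ (n - 1) + (b * b - b) * ((R.card - 2).choose D * (R.card - 2).choose D) *
        ((b - 2) ^ (R.card - 2 - 2 * D) * b ^ (n - R.card)) := by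
          refine le_trans ?_ (Nat.add_le_add (countSame i0 i1 hi1.1.symm) (countB R i0 i1 hi0 hi1.2 hi1.1.symm D))
          refine le_trans ?_ (Finset.card_union_le _ _)
          apply Finset.card_le_card
          intro t ht
          rw [Finset.mem_filter] at ht
          rw [Finset.mem_union, Finset.mem_filter, Finset.mem_filter]
          by_cases h : t i0 = t i1
          · left
            exact ⟨Finset.mem_univ _, h⟩
          · right
            exact ⟨Finset.mem_univ _, h, ht.2⟩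
        refine le_trans ?_ (Nat.pow_le_pow_left h3 z)
        rw [← Finset.card_filter, ← countProd]
        apply Finset.card_le_card
        intro s hs
        rw [Finset.mem_filter] at hs ⊢
        exact ⟨hs.1, fun j => ⟨hs.2.1 j, hs.2.2 j⟩⟩
      refine (Finset.sum_le_sum h2).trans ?_
      rw [Finset.sum_const, smul_eq_mul]
      apply Nat.mul_le_mul_right
      exact Finset.card_le_card (Finset.erase_subset _ _)
  refine (Finset.sum_le_sum h).trans (le_of_eq ?_)
  rw [Finset.sum_const, smul_eq_mul]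
  ring

/-- Chebyshev for counting -/
lemma cheb {S : Type} [Fintype S] (f : S → ℕ) (M : ℝ) (hM : M = Fintype.card S) (hM0 : 0 < M)
    (μ σ : ℝ) (hμ : 0 < μ) (h1 : ∑ s, (f s : ℝ) = μ * M) (h2 : ∑ s, (f s : ℝ) ^ 2 ≤ σ * M) :
    ((univ.filter (fun s => f s = 0)).card : ℝ) ≤ (σ / μ ^ 2 - 1) * M := by
  have h3 : ((univ.filter (fun s => f s = 0)).card : ℝ) * μ ^ 2 ≤ ∑ s, ((f s : ℝ) - μ) ^ 2 := by
    rw [← nsmul_eq_mul, ← Finset.sum_const]
    calc ∑ s ∈ univ.filter (fun s => f s = 0), μ ^ 2 = ∑ s ∈ univ.filter (fun s => f s = 0), ((f s : ℝ) - μ) ^ 2 := by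
          apply Finset.sum_congr rfl
          intro s hs
          rw [(Finset.mem_filter.1 hs).2]
          push_cast
          ring
      _ ≤ _ := Finset.sum_le_sum_of_subset_of_nonneg (Finset.filter_subset _ _) (fun s _ _ => sq_nonneg _)
  have h4 : ∑ s, ((f s : ℝ) - μ) ^ 2 = ∑ s, (f s : ℝ) ^ 2 - 2 * μ * ∑ s, (f s : ℝ) + μ ^ 2 * M := by
    have : ∀ s ∈ (univ : Finset S), ((f s : ℝ) - μ) ^ 2 = (f s : ℝ) ^ 2 - 2 * μ * (f s : ℝ) + μ ^ 2 := by
      intro s _
      ring
    rw [Finset.sum_congr rfl this, Finset.sum_add_distrib, Finset.sum_sub_distrib, ← Finset.mul_sum,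
      Finset.sum_const, nsmul_eq_mul, Finset.card_univ, hM]
    ring
  rw [h4, h1] at h3
  have h5 : ((univ.filter (fun s => f s = 0)).card : ℝ) * μ ^ 2 ≤ (σ - μ ^ 2) * M := by nlinarith
  have h6 : (σ / μ ^ 2 - 1) * M = ((σ - μ ^ 2) * M) / μ ^ 2 := by
    field_simp
  rw [h6, le_div_iff₀ (by positivity)]
  exact h5

/-- the probability that a given row is good in a given block -/
noncomputable def pp (r b D : ℕ) : ℝ := ((r - 1).choose D : ℝ) * (1 - 1 / (b : ℝ)) ^ (r - 1 - D) / (b : ℝ) ^ D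

lemma bad_le (r D : ℕ) (hr : 2 * D + 2 ≤ r) (hrn : r ≤ n) (hb : 2 ≤ b) (R : Finset (Fin n)) (hR : R.card = r) :
    ((univ.filter (fun s : Fin n → Fin z → Fin b => X R D s = 0)).card : ℝ) ≤
      (1 / (r * pp r b D ^ z) + (1 / (b * pp r b D ^ 2) + ((1 - 1 / (b : ℝ)) ^ (2 + 2 * D))⁻¹) ^ z - 1) *
        (Fintype.card (Fin n → Fin z → Fin b) : ℝ) := by
  have hb0 : (0 : ℝ) < b := by exact_mod_cast (by omega : 0 < b)
  have hb2 : (2 : ℝ) ≤ b := by exact_mod_cast hb
  have hq0 : 0 < 1 - 1 / (b : ℝ) := by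
    have : 1 / (b : ℝ) ≤ 1 / 2 := one_div_le_one_div_of_le (by norm_num) hb2
    linarith
  have hr0 : (0 : ℝ) < r := by exact_mod_cast (by omega : 0 < r)
  have hch : 0 < (r - 1).choose D := Nat.choose_pos (by omega)
  have hp0 : 0 < pp r b D := by
    unfold pp
    have : (0 : ℝ) < ((r - 1).choose D : ℝ) := by exact_mod_cast hch
    positivity
  -- A / b ^ n
  have hA : ((b * (R.card - 1).choose D * ((b - 1) ^ (R.card - 1 - D) * b ^ (n - R.card)) : ℕ) : ℝ) = pp r b D * (b : ℝ) ^ n := by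
    rw [hR]
    push_cast [Nat.cast_sub (show 1 ≤ b by omega)]
    unfold pp
    have e1 : ((b : ℝ) - 1) = b * (1 - 1 / b) := by field_simp
    have e2 : (b : ℝ) ^ n = b ^ D * b ^ (r - 1 - D) * b * b ^ (n - r) := by
      rw [← pow_add, ← pow_succ, ← pow_add]
      congr 1
      omega
    rw [e1, mul_pow, e2]
    field_simp
  set β : ℝ := 1 / b + pp r b D ^ 2 * ((1 - 1 / (b : ℝ)) ^ (2 + 2 * D))⁻¹ with hβ
  have hβ0 : 0 < β := by positivity
  have hB : ((b ^ (n - 1) + (b * b - b) * ((R.card - 2).choose D * (R.card - 2).choose D) *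
        ((b - 2) ^ (R.card - 2 - 2 * D) * b ^ (n - R.card)) : ℕ) : ℝ) ≤ β * (b : ℝ) ^ n := by
    rw [hR]
    rw [hβ, add_mul]
    push_cast [Nat.cast_sub (show 2 ≤ b by omega), Nat.cast_sub (show b ≤ b * b by nlinarith)]
    apply add_le_add
    · have e2 : (b : ℝ) ^ n = b ^ (n - 1) * b := by
        rw [← pow_succ]
        congr 1
        omega
      rw [e2]
      field_simp
      exact le_refl _
    · have hc1 : ((r - 2).choose D : ℝ) ≤ ((r - 1).choose D : ℝ) := by
        exact_mod_cast Nat.choose_le_choose D (by omega)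
      have e1 : ((b : ℝ) - 2) = b * (1 - 2 / b) := by field_simp
      have e2 : (b : ℝ) ^ n = b ^ 2 * (b ^ D) ^ 2 * b ^ (r - 2 - 2 * D) * b ^ (n - r) := by
        rw [← pow_mul, ← pow_add, ← pow_add, ← pow_add]
        congr 1
        omega
      have e3 : (b : ℝ) * b - b = b ^ 2 * (1 - 1 / b) := by field_simp
      have h2b : 0 ≤ 1 - 2 / (b : ℝ) := by
        have : 2 / (b : ℝ) ≤ 1 := by rw [div_le_one hb0]; exact hb2
        linarith
      have h4 : (1 - 2 / (b : ℝ)) ≤ (1 - 1 / (b : ℝ)) ^ 2 := by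
        have : (1 - 1 / (b : ℝ)) ^ 2 = 1 - 2 / b + (1 / (b : ℝ)) ^ 2 := by field_simp; ring
        rw [this]
        have := sq_nonneg (1 / (b : ℝ))
        linarith
      have h5 : (1 - 2 / (b : ℝ)) ^ (r - 2 - 2 * D) ≤ ((1 - 1 / (b : ℝ)) ^ (r - 1 - D)) ^ 2 * ((1 - 1 / (b : ℝ)) ^ (2 + 2 * D))⁻¹ := by
        have h6 : (1 - 2 / (b : ℝ)) ^ (r - 2 - 2 * D) ≤ ((1 - 1 / (b : ℝ)) ^ 2) ^ (r - 2 - 2 * D) :=
          pow_le_pow_left₀ h2b h4 _
        refine h6.trans (le_of_eq ?_)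
        rw [eq_mul_inv_iff_mul_eq₀ (by positivity), ← pow_mul, ← pow_mul, ← pow_add]
        congr 1
        omega
      have h1b : (1 - 1 / (b : ℝ)) ≤ 1 := by
        have : 0 ≤ 1 / (b : ℝ) := by positivity
        linarith
      have h7 : ((r - 2).choose D : ℝ) * ((r - 2).choose D : ℝ) ≤ ((r - 1).choose D : ℝ) ^ 2 := by
        rw [sq]
        exact mul_le_mul hc1 hc1 (by positivity) (by positivity)
      rw [e1, mul_pow, e3, e2]
      unfold pp
      calc (b : ℝ) ^ 2 * (1 - 1 / ↑b) * (((r - 2).choose D : ℝ) * ((r - 2).choose D : ℝ)) *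
          (b ^ (r - 2 - 2 * D) * (1 - 2 / ↑b) ^ (r - 2 - 2 * D) * b ^ (n - r))
          ≤ (b : ℝ) ^ 2 * 1 * (((r - 1).choose D : ℝ) ^ 2) *
          (b ^ (r - 2 - 2 * D) * (((1 - 1 / (b : ℝ)) ^ (r - 1 - D)) ^ 2 * ((1 - 1 / (b : ℝ)) ^ (2 + 2 * D))⁻¹) * b ^ (n - r)) := by
            gcongr
        _ = _ := by
            field_simp
  -- the sums
  have hcard : (Fintype.card (Fin n → Fin z → Fin b) : ℝ) = ((b : ℝ) ^ n) ^ z := by
    rw [Fintype.card_fun, Fintype.card_fun, Fintype.card_fin, Fintype.card_fin, Fintype.card_fin]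
    push_cast
    rw [← pow_mul, ← pow_mul, mul_comm]
  have h1 : ∑ s : Fin n → Fin z → Fin b, (X R D s : ℝ) = (r * pp r b D ^ z) * ((b : ℝ) ^ n) ^ z := by
    have := sum_X (z := z) (b := b) R D
    have h := congrArg (Nat.cast : ℕ → ℝ) this
    rw [Nat.cast_sum, Nat.cast_mul, Nat.cast_pow, hA, hR, mul_pow, ← mul_assoc] at h
    exact h
  have h2 : ∑ s : Fin n → Fin z → Fin b, (X R D s : ℝ) ^ 2 ≤ (r * pp r b D ^ z + r ^ 2 * β ^ z) * ((b : ℝ) ^ n) ^ z := by
    have := sum_X_sq (z := z) (b := b) R D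
    have h : ((∑ s : Fin n → Fin z → Fin b, X R D s ^ 2 : ℕ) : ℝ) ≤ _ := Nat.cast_le.2 this
    rw [Nat.cast_sum, Nat.cast_add, Nat.cast_mul, Nat.cast_pow, hA, hR, mul_pow, Nat.cast_mul, Nat.cast_pow, Nat.cast_pow] at h
    simp_rw [Nat.cast_pow] at h
    refine h.trans ?_
    rw [add_mul, ← mul_assoc, mul_assoc ((r : ℝ) ^ 2), ← mul_pow]
    rw [hR] at hB
    gcongr
  have h3 := cheb (fun s : Fin n → Fin z → Fin b => X R D s) (((b : ℝ) ^ n) ^ z) hcard.symm (by positivity)
    (r * pp r b D ^ z) (r * pp r b D ^ z + r ^ 2 * β ^ z) (by positivity) h1 h2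
  rw [hcard]
  refine h3.trans (le_of_eq ?_)
  congr 2
  rw [add_div]
  congr 1
  · field_simp
  · rw [mul_pow, mul_div_mul_left _ _ (by positivity : (r : ℝ) ^ 2 ≠ 0), ← pow_mul, mul_comm z 2, pow_mul, ← div_pow]
    congr 1
    rw [hβ]
    field_simp

end Pool.Agent.Q253.Osi
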