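import Pool.Agent.Q253.OsiC

set_option autoImplicit false

namespace Pool.Agent.Q253.Osi
open Finset Filter Topology

variable {n z b : ℕ}

/-- the constant lower bound for `pp` -/
noncomputable def p0 (C₁ C₂ : ℝ) (D : ℕ) : ℝ := (1 / (2 * C₂)) ^ D / (D.factorial : ℝ) * Real.exp (-(2 * C₁))

lemma p0_pos (C₁ C₂ : ℝ) (D : ℕ) (h2 : 0 < C₂) : 0 < p0 C₁ C₂ D := by
  unfold p0
  positivity

lemma pp_ge (C₁ C₂ : ℝ) (D r b : ℕ) (hC₂ : 0 < C₂) (hr : 2 * D + 2 ≤ r) (hb : 2 ≤ b)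
    (h1 : (r : ℝ) ≤ C₁ * b) (h2 : (b : ℝ) ≤ C₂ * r) : p0 C₁ C₂ D ≤ pp r b D := by
  have hb0 : (0 : ℝ) < b := by exact_mod_cast (by omega : 0 < b)
  have hb2 : (2 : ℝ) ≤ b := by exact_mod_cast hb
  have hr0 : (0 : ℝ) < r := by exact_mod_cast (by omega : 0 < r)
  have hq0 : 0 < 1 - 1 / (b : ℝ) := by
    have : 1 / (b : ℝ) ≤ 1 / 2 := one_div_le_one_div_of_le (by norm_num) hb2
    linarith
  have hq1 : 1 - 1 / (b : ℝ) ≤ 1 := by
    have : 0 ≤ 1 / (b : ℝ) := by positivity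
    linarith
  have e1 : Real.exp (-(2 * C₁)) ≤ (1 - 1 / (b : ℝ)) ^ (r - 1 - D) := by
    have l1 : (1 - 1 / (b : ℝ)) ^ r ≤ (1 - 1 / (b : ℝ)) ^ (r - 1 - D) :=
      pow_le_pow_of_le_one hq0.le hq1 (by omega)
    refine le_trans ?_ l1
    have l2 : (1 - 1 / (b : ℝ)) ^ r = Real.exp (r * Real.log (1 - 1 / (b : ℝ))) := by
      rw [mul_comm, Real.exp_mul, Real.exp_log hq0, Real.rpow_natCast]
    rw [l2]
    apply Real.exp_le_exp.2
    have l3 : 1 - (1 - 1 / (b : ℝ))⁻¹ ≤ Real.log (1 - 1 / (b : ℝ)) := Real.one_sub_inv_le_log_of_pos hq0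
    have l4 : 1 - (1 - 1 / (b : ℝ))⁻¹ = - (1 / (b - 1)) := by
      have : (b : ℝ) - 1 ≠ 0 := by linarith
      have h' : 1 - 1 / (b : ℝ) = (b - 1) / b := by field_simp
      rw [h', inv_div]
      field_simp
      ring
    have l5 : 1 / ((b : ℝ) - 1) ≤ 2 / b := by
      rw [div_le_div_iff₀ (by linarith) hb0]
      linarith
    have l6 : -(2 / (b : ℝ)) ≤ Real.log (1 - 1 / (b : ℝ)) := by linarith
    have l7 : (r : ℝ) * (-(2 / (b : ℝ))) ≤ r * Real.log (1 - 1 / (b : ℝ)) := mul_le_mul_of_nonneg_left l6 hr0.le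
    refine le_trans ?_ l7
    have l8 : (r : ℝ) * (2 / (b : ℝ)) ≤ 2 * C₁ := by
      rw [mul_div_assoc', div_le_iff₀ hb0]
      linarith
    linarith
  have e2 : (1 / (2 * C₂)) ^ D / (D.factorial : ℝ) ≤ ((r - 1).choose D : ℝ) / (b : ℝ) ^ D := by
    have l1 : (((r - 1 + 1 - D : ℕ) : ℝ)) ^ D / (D.factorial : ℝ) ≤ ((r - 1).choose D : ℝ) := Nat.pow_le_choose D (r - 1)
    have l2 : (r : ℝ) / 2 ≤ ((r - 1 + 1 - D : ℕ) : ℝ) := by
      rw [show r - 1 + 1 - D = r - D by omega, Nat.cast_sub (by omega)]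
      have : (2 * (D : ℝ) + 2) ≤ r := by exact_mod_cast hr
      linarith
    have l3 : ((r : ℝ) / 2) ^ D / (D.factorial : ℝ) ≤ ((r - 1).choose D : ℝ) :=
      le_trans (div_le_div_of_nonneg_right (pow_le_pow_left₀ (by positivity) l2 D) (by positivity)) l1
    have l4 : (1 / (2 * C₂)) ^ D ≤ ((r : ℝ) / 2) ^ D / (b : ℝ) ^ D := by
      rw [← div_pow]
      apply pow_le_pow_left₀ (by positivity)
      rw [div_div, div_le_div_iff₀ (by positivity) (by positivity)]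
      nlinarith
    calc (1 / (2 * C₂)) ^ D / (D.factorial : ℝ) ≤ (((r : ℝ) / 2) ^ D / (b : ℝ) ^ D) / (D.factorial : ℝ) :=
          div_le_div_of_nonneg_right l4 (by positivity)
      _ = (((r : ℝ) / 2) ^ D / (D.factorial : ℝ)) / (b : ℝ) ^ D := by ring
      _ ≤ _ := div_le_div_of_nonneg_right l3 (by positivity)
  unfold p0 pp
  calc (1 / (2 * C₂)) ^ D / (D.factorial : ℝ) * Real.exp (-(2 * C₁)) ≤
        (((r - 1).choose D : ℝ) / (b : ℝ) ^ D) * (1 - 1 / (b : ℝ)) ^ (r - 1 - D) := by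
        gcongr
    _ = _ := by ring

lemma pp_le_one_of (C₁ C₂ : ℝ) (D : ℕ) (hC₁ : 0 ≤ C₁) (hC₂ : 1 ≤ C₂) : p0 C₁ C₂ D ≤ 1 := by
  unfold p0
  have h1 : (1 / (2 * C₂)) ^ D ≤ 1 := by
    apply pow_le_one₀ (by positivity)
    rw [div_le_one (by positivity)]
    linarith
  have h2 : (1 : ℝ) ≤ (D.factorial : ℝ) := by exact_mod_cast Nat.one_le_iff_ne_zero.2 (Nat.factorial_ne_zero D)
  have h3 : Real.exp (-(2 * C₁)) ≤ 1 := by
    rw [Real.exp_le_one_iff]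
    linarith
  have h4 : (1 / (2 * C₂)) ^ D / (D.factorial : ℝ) ≤ 1 := by
    rw [div_le_one (by positivity)]
    linarith
  exact mul_le_one₀ h4 (Real.exp_pos _).le h3

/-- the bad positions are rare -/
lemma bad_small (C₁ : ℕ) (C₂ : ℝ) (hC₂ : 1 ≤ C₂) (D : ℕ) (η : ℝ) (hη : 0 < η) :
    ∃ r₀ : ℕ, ∀ r n z b : ℕ, r₀ ≤ r → r ≤ n → 1 ≤ z → z ≤ C₁ → r ≤ C₁ * b → (b : ℝ) ≤ C₂ * r →
      ∀ R : Finset (Fin n), R.card = r →
      ((univ.filter (fun s : Fin n → Fin z → Fin b => X R D s = 0)).card : ℝ) ≤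
        η * (Fintype.card (Fin n → Fin z → Fin b) : ℝ) := by
  set q := p0 C₁ C₂ D with hq
  have hq0 : 0 < q := p0_pos _ _ _ (by linarith)
  have hq1 : q ≤ 1 := pp_le_one_of _ _ _ (Nat.cast_nonneg _) hC₂
  -- limits
  have t1 : Tendsto (fun b : ℕ => (1 / ((b : ℝ) * q ^ 2) + ((1 - 1 / (b : ℝ)) ^ (2 + 2 * D))⁻¹) ^ C₁) atTop (𝓝 1) := by
    have a1 : Tendsto (fun b : ℕ => 1 / (b : ℝ)) atTop (𝓝 0) := tendsto_one_div_atTop_nhds_zero_nat
    have a2 : Tendsto (fun b : ℕ => 1 / ((b : ℝ) * q ^ 2)) atTop (𝓝 0) := by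
      have : (fun b : ℕ => 1 / ((b : ℝ) * q ^ 2)) = fun b : ℕ => (1 / (b : ℝ)) * (1 / q ^ 2) := by
        funext b
        rw [one_div_mul_one_div]
      rw [this, show (0 : ℝ) = 0 * (1 / q ^ 2) by ring]
      exact a1.mul_const _
    have a3 : Tendsto (fun b : ℕ => ((1 - 1 / (b : ℝ)) ^ (2 + 2 * D))⁻¹) atTop (𝓝 1) := by
      have h1 : Tendsto (fun b : ℕ => (1 - 1 / (b : ℝ)) ^ (2 + 2 * D)) atTop (𝓝 ((1 - 0) ^ (2 + 2 * D))) :=
        (tendsto_const_nhds.sub a1).pow _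
      have h2 := h1.inv₀ (by simp)
      simpa using h2
    have a4 := (a2.add a3).pow C₁
    simpa using a4
  have t2 : Tendsto (fun r : ℕ => 1 / ((r : ℝ) * q ^ C₁)) atTop (𝓝 0) := by
    have a1 : Tendsto (fun b : ℕ => 1 / (b : ℝ)) atTop (𝓝 0) := tendsto_one_div_atTop_nhds_zero_nat
    have : (fun b : ℕ => 1 / ((b : ℝ) * q ^ C₁)) = fun b : ℕ => (1 / (b : ℝ)) * (1 / q ^ C₁) := by
      funext b
      rw [one_div_mul_one_div]
    rw [this, show (0 : ℝ) = 0 * (1 / q ^ C₁) by ring]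
    exact a1.mul_const _
  have t3 := (t1.eventually (gt_mem_nhds (show (1 : ℝ) < 1 + η / 2 by linarith)))
  have t4 := (t2.eventually (gt_mem_nhds (show (0 : ℝ) < η / 2 by linarith)))
  obtain ⟨b₁, hb₁⟩ := eventually_atTop.1 t3
  obtain ⟨r₁, hr₁⟩ := eventually_atTop.1 t4
  refine ⟨r₁ + (2 * D + 2) + (C₁ * (b₁ + 2)) + 1, ?_⟩
  intro r n z b hr hrn hz hzC hrb hbr R hR
  have hC1 : 1 ≤ C₁ := hz.trans hzC
  have hbb : b₁ + 2 ≤ b := by
    by_contra hlt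
    push Not at hlt
    have : C₁ * b ≤ C₁ * (b₁ + 2) := Nat.mul_le_mul_left _ hlt.le
    omega
  have hb2 : 2 ≤ b := by omega
  have hb0 : (0 : ℝ) < b := by exact_mod_cast (by omega : 0 < b)
  have hr0 : (0 : ℝ) < r := by exact_mod_cast (by omega : 0 < r)
  have hD : 2 * D + 2 ≤ r := by omega
  have hpp : q ≤ pp r b D := by
    apply pp_ge C₁ C₂ D r b (by linarith) hD hb2 _ hbr
    exact_mod_cast hrb
  have hpp0 : 0 < pp r b D := hq0.trans_le hpp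
  refine (bad_le r D hD hrn hb2 R hR).trans ?_
  apply mul_le_mul_of_nonneg_right _ (Nat.cast_nonneg _)
  have hb2r : (2 : ℝ) ≤ b := by exact_mod_cast hb2
  have hq0' : 0 < 1 - 1 / (b : ℝ) := by
    have : 1 / (b : ℝ) ≤ 1 / 2 := one_div_le_one_div_of_le (by norm_num) hb2r
    linarith
  have hq1' : 1 - 1 / (b : ℝ) ≤ 1 := by
    have : 0 ≤ 1 / (b : ℝ) := by positivity
    linarith
  have f1 : 1 / ((r : ℝ) * pp r b D ^ z) ≤ 1 / ((r : ℝ) * q ^ C₁) := by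
    apply one_div_le_one_div_of_le (by positivity)
    apply mul_le_mul_of_nonneg_left _ hr0.le
    calc q ^ C₁ ≤ q ^ z := pow_le_pow_of_le_one hq0.le hq1 hzC
      _ ≤ _ := pow_le_pow_left₀ hq0.le hpp z
  have f2 : (1 / ((b : ℝ) * pp r b D ^ 2) + ((1 - 1 / (b : ℝ)) ^ (2 + 2 * D))⁻¹) ^ z ≤
      (1 / ((b : ℝ) * q ^ 2) + ((1 - 1 / (b : ℝ)) ^ (2 + 2 * D))⁻¹) ^ C₁ := by
    have g1 : 1 ≤ ((1 - 1 / (b : ℝ)) ^ (2 + 2 * D))⁻¹ := by
      rw [one_le_inv₀ (by positivity)]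
      exact pow_le_one₀ hq0'.le hq1'
    have g2 : 1 / ((b : ℝ) * pp r b D ^ 2) ≤ 1 / ((b : ℝ) * q ^ 2) := by
      apply one_div_le_one_div_of_le (by positivity)
      gcongr
    have g3 : 0 ≤ 1 / ((b : ℝ) * q ^ 2) := by positivity
    have g4 : 0 ≤ 1 / ((b : ℝ) * pp r b D ^ 2) := by positivity
    calc _ ≤ (1 / ((b : ℝ) * q ^ 2) + ((1 - 1 / (b : ℝ)) ^ (2 + 2 * D))⁻¹) ^ z := by
          apply pow_le_pow_left₀ (by linarith)
          linarith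
      _ ≤ _ := pow_le_pow_right₀ (by linarith) hzC
  have f3 := hb₁ b (by omega)
  have f4 := hr₁ r (by omega)
  linarith

/-- Markov over the signs, for a good position -/
lemma signs (R : Finset (Fin n)) (s : Fin n → Fin z → Fin b) (i0 : Fin n) (hi0 : i0 ∈ R) (D : ℕ) (hD : 0 < D)
    (hz : 1 ≤ z) (hH : ∀ j, (Hs R s i0 j).card = D) (α : ℝ) (hα : 0 < α)
    (T : Finset (Fin n → Fin z → Bool))
    (hT : ∀ t ∈ T, ∀ x : Fin n → ℝ, (∀ i, i ∉ R → x i = 0) →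
      α * ∑ i, x i ^ 2 ≤ (1 / (z : ℝ)) * ∑ j, ∑ c, Y s t x j c ^ 2) :
    (T.card : ℝ) ≤ (z / (D * α)) * (Fintype.card (Fin n → Fin z → Bool) : ℝ) := by
  have hD0 : (0 : ℝ) < D := by exact_mod_cast hD
  have hz0 : (0 : ℝ) < z := by exact_mod_cast hz
  have h1 : ∀ t ∈ T, α ≤ (1 / (z : ℝ)) * ∑ j, ∑ c, Y s t (xv R s i0 D t) j c ^ 2 := by
    intro t ht
    refine le_trans ?_ (hT t ht (xv R s i0 D t) ?_)
    · have : (1 : ℝ) ≤ ∑ i, xv R s i0 D t i ^ 2 := by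
        have h2 : xv R s i0 D t i0 ^ 2 ≤ ∑ i, xv R s i0 D t i ^ 2 :=
          Finset.single_le_sum (fun i _ => sq_nonneg (xv R s i0 D t i)) (Finset.mem_univ i0)
        rw [xv_self] at h2
        linarith
      nlinarith
    · intro i hi
      unfold xv
      have hne : i ≠ i0 := fun h => hi (h ▸ hi0)
      rw [if_neg hne]
      have : ∀ j ∈ (univ : Finset (Fin z)), (if i ∈ Hs R s i0 j then sg (t i0 j) * sg (t i j) / (D : ℝ) else 0) = 0 := by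
        intro j _
        rw [if_neg]
        intro h
        unfold Hs at h
        exact hi (Finset.mem_filter.1 h).1
      rw [Finset.sum_congr rfl this]
      simp
  have h2 : α * T.card ≤ ∑ t : Fin n → Fin z → Bool, (1 / (z : ℝ)) * ∑ j, ∑ c, Y s t (xv R s i0 D t) j c ^ 2 := by
    calc α * T.card = ∑ t ∈ T, α := by rw [Finset.sum_const, nsmul_eq_mul]; ring
      _ ≤ ∑ t ∈ T, (1 / (z : ℝ)) * ∑ j, ∑ c, Y s t (xv R s i0 D t) j c ^ 2 := Finset.sum_le_sum h1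
      _ ≤ _ := by
          apply Finset.sum_le_sum_of_subset_of_nonneg (Finset.subset_univ _)
          intro t _ _
          positivity
  rw [← Finset.mul_sum, second_moment R s i0 D hD hH] at h2
  have h3 : ((z - 1 : ℕ) : ℝ) ≤ z := by exact_mod_cast Nat.sub_le z 1
  have h4 : (1 / (z : ℝ)) * ((Fintype.card (Fin n → Fin z → Bool) : ℝ) * (z * ((z - 1 : ℕ) : ℝ) / D)) =
      (Fintype.card (Fin n → Fin z → Bool) : ℝ) * (((z - 1 : ℕ) : ℝ) / D) := by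
    field_simp
  rw [h4] at h2
  have h5 : (Fintype.card (Fin n → Fin z → Bool) : ℝ) * (((z - 1 : ℕ) : ℝ) / D) ≤
      (Fintype.card (Fin n → Fin z → Bool) : ℝ) * ((z : ℝ) / D) := by
    gcongr
  have h6 : (z / (D * α)) * (Fintype.card (Fin n → Fin z → Bool) : ℝ) =
      ((Fintype.card (Fin n → Fin z → Bool) : ℝ) * ((z : ℝ) / D)) / α := by
    field_simp
  rw [h6, le_div_iff₀ hα]
  linarith

end Pool.Agent.Q253.Osi
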